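import Pool.Agent.helper74.VD.SpecA3
import Pool.Agent.helper74.VQ.SpecA

/-!
# MP_07c750, project VD, row AFBD (the norm of a family). Port of helper44/VQ/VFB.lean; the measure theoretic lemmas are those of helper9/VD/AFRD.lean
-/

set_option autoImplicit false

open scoped ContDiff Topology InnerProductSpace ComplexConjugate ENNReal
open MeasureTheory Filter Set

namespace Pool.Agent.VD

open Pool.Agent.VQ (CH)

noncomputable section

/-- functions defined by pieces -/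
lemma AFBD_cm {X E Γ : Type} [MeasurableSpace X] [MeasurableSpace E] [Countable Γ] (c : X → Γ)
    (hc : ∀ γ, MeasurableSet {x | c x = γ}) (h : X → E) (hh : Γ → X → E)
    (hm : ∀ γ, Measurable (hh γ)) (he : ∀ x, h x = hh (c x) x) : Measurable h := by
  intro s hs
  have e : h ⁻¹' s = ⋃ γ : Γ, ({x | c x = γ} ∩ (hh γ) ⁻¹' s) := by
    ext x
    constructor
    · intro hx
      refine mem_iUnion.2 ⟨c x, rfl, ?_⟩
      show hh (c x) x ∈ s
      rw [← he x]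
      exact hx
    · intro hx
      obtain ⟨γ, h1, h2⟩ := mem_iUnion.1 hx
      have h1' : c x = γ := h1
      show h x ∈ s
      rw [he x, h1']
      exact h2
  rw [e]
  exact MeasurableSet.iUnion fun γ => (hc γ).inter (hm γ hs)

lemma AFBD_fst (d : ℕ) (Γ : Type) (S : Set Γ) : MeasurableSet {y : YS Γ d | y.1 ∈ S} := by
  have h : @Measurable (YS Γ d) Γ _ ⊤ (fun y => y.1) := @measurable_fst Γ (P d) ⊤ _
  exact h (show @MeasurableSet Γ ⊤ S from trivial)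

lemma AFBD_snd (d : ℕ) (Γ : Type) : Measurable (fun y : YS Γ d => y.2) :=
  @measurable_snd Γ (P d) ⊤ _

lemma AFBD_one {d : ℕ} (Γ : Type) [Group Γ] {S : Set (YS Γ d)} (hS : MeasurableSet S) :
    MeasurableSet {p : P d | (((1 : Γ), p) : YS Γ d) ∈ S} :=
  (@measurable_prodMk_left Γ (P d) ⊤ _ 1) hS

/-- kernels with the properties of the packets -/
structure AFBD_G {d : ℕ} (Γ : Type) [Group Γ] [MulAction Γ (V d)] (W : Set (YS Γ d)) (C m : ℝ)
    (g : YS Γ d → V d → ℂ) : Prop where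
  meas : Measurable fun x : YS Γ d × V d => g x.1 x.2
  cz : ∀ y, Continuous (g y)
  bd : ∀ y z, ‖g y z‖ ≤ m
  supp : ∀ y z, g y z ≠ 0 → y ∈ W ∧ ‖y.1⁻¹ • z‖ ≤ C
  eqv : ∀ (γ : Γ) (y : YS Γ d) (z : V d), g (γ • y) (γ • z) = g y z

section main

variable {d : ℕ} {Γ : Type} [Group Γ] [MulAction Γ (V d)] {K : Set (V d)} {C m : ℝ}
  {W : Set (YS Γ d)} {g : YS Γ d → V d → ℂ}

lemma AFBD_cont (h : FdK Γ K) (γ : Γ) : Continuous fun z : V d => γ • z := (h.smooth γ).continuous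

/-- a compact set meets only finitely many translates of a compact set -/
lemma AFBD_fin (h : FdK Γ K) (a b : ℝ) : {γ : Γ | ∃ z : V d, ‖z‖ ≤ a ∧ ‖γ⁻¹ • z‖ ≤ b}.Finite := by
  have h1 := h.proper (Metric.closedBall (0 : V d) (max a b)) (isCompact_closedBall _ _)
  refine h1.subset ?_
  rintro γ ⟨z, hz1, hz2⟩
  refine ⟨γ⁻¹ • z, ?_, ?_⟩
  · rw [mem_closedBall_zero_iff]
    exact hz2.trans (le_max_right _ _)
  · rw [smul_inv_smul, mem_closedBall_zero_iff]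
    exact hz1.trans (le_max_left _ _)

/-- finitely many translates of a ball are bounded -/
lemma AFBD_ball (h : FdK Γ K) (S : Finset Γ) (b : ℝ) : ∃ c : ℝ, ∀ γ ∈ S, ∀ w : V d, ‖w‖ ≤ b → ‖γ • w‖ ≤ c := by
  have h1 : ∀ γ : Γ, ∃ c : ℝ, ∀ w : V d, ‖w‖ ≤ b → ‖γ • w‖ ≤ c := by
    intro γ
    obtain ⟨c, hc⟩ := (isCompact_closedBall (0 : V d) b).exists_bound_of_continuousOn (AFBD_cont h γ).continuousOn
    exact ⟨c, fun w hw => hc w (mem_closedBall_zero_iff.2 hw)⟩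
  choose c hc using h1
  refine ⟨∑ γ ∈ S, |c γ|, fun γ hγ w hw => ?_⟩
  calc ‖γ • w‖ ≤ c γ := hc γ w hw
    _ ≤ |c γ| := le_abs_self _
    _ ≤ ∑ γ ∈ S, |c γ| := Finset.single_le_sum (f := fun γ => |c γ|) (fun _ _ => abs_nonneg _) hγ

/-- invariant functions are bounded -/
lemma AFBD_bdd {Λ : Subgroup Γ} {F : Set (V d)} (hF : ∀ z : V d, ∃! γ : Λ, (γ : Γ) • z ∈ F) {φ : V d → ℂ}
    (hφ : FH Λ F φ) : ∃ M : ℝ, 0 ≤ M ∧ ∀ z, ‖φ z‖ ≤ M := by
  obtain ⟨b, hb⟩ := hφ.supp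
  obtain ⟨M, hM⟩ := (isCompact_closedBall (0 : V d) b).exists_bound_of_continuousOn hφ.cont.continuousOn
  refine ⟨max M 0, le_max_right _ _, fun z => ?_⟩
  obtain ⟨γ, hγ, -⟩ := hF z
  have hγ' : (γ : Γ) • z ∈ F := hγ
  rw [← hφ.inv γ γ.2 z]
  by_cases h0 : φ ((γ : Γ) • z) = 0
  · rw [h0, norm_zero]
    exact le_max_right _ _
  · exact (hM _ (mem_closedBall_zero_iff.2 (hb _ hγ' h0))).trans (le_max_left _ _)

lemma AFBD_m (hG : AFBD_G Γ W C m g) : 0 ≤ m := (norm_nonneg _).trans (hG.bd (1, 0) 0)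

lemma AFBD_emb (hFd : FdK Γ K) (γ : Γ) : MeasurableEmbedding fun x : V d => γ • x :=
  ({ toFun := fun x => γ • x
     invFun := fun x => γ⁻¹ • x
     left_inv := fun x => inv_smul_smul γ x
     right_inv := fun x => smul_inv_smul γ x
     continuous_toFun := AFBD_cont hFd γ
     continuous_invFun := AFBD_cont hFd γ⁻¹ } : V d ≃ₜ V d).measurableEmbedding


omit [Group Γ] [MulAction Γ (V d)] in
/-- the measure of finitely many charts -/
lemma AFBD_meas (h4 : ∀ f : YS Γ d → ENNReal, Measurable f → ∫⁻ y, f y ∂mY Γ d = ∑' γ : Γ, ∫⁻ p : P d, f (γ, p))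
    {W0 : Set (P d)} (hW0 : MeasurableSet W0) (hfin : volume W0 < ⊤) (S : Set Γ) (hS : S.Finite) :
    MeasurableSet {y : YS Γ d | y.1 ∈ S ∧ y.2 ∈ W0} ∧ mY Γ d {y : YS Γ d | y.1 ∈ S ∧ y.2 ∈ W0} < ⊤ := by
  have hms : MeasurableSet {y : YS Γ d | y.1 ∈ S ∧ y.2 ∈ W0} :=
    (AFBD_fst d Γ S).inter (AFBD_snd d Γ hW0)
  refine ⟨hms, ?_⟩
  have hle : ∀ y : YS Γ d, {y : YS Γ d | y.1 ∈ S ∧ y.2 ∈ W0}.indicator (1 : YS Γ d → ENNReal) y ≤
      W0.indicator (1 : P d → ENNReal) y.2 := by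
    intro y
    by_cases hy : y ∈ {y : YS Γ d | y.1 ∈ S ∧ y.2 ∈ W0}
    · rw [Set.indicator_of_mem hy, Set.indicator_of_mem hy.2]
      exact le_refl _
    · rw [Set.indicator_of_notMem hy]
      exact bot_le
  have hz : ∀ y : YS Γ d, y.1 ∉ S → {y : YS Γ d | y.1 ∈ S ∧ y.2 ∈ W0}.indicator (1 : YS Γ d → ENNReal) y = 0 := by
    intro y hy
    exact Set.indicator_of_notMem (fun h => hy h.1) _
  rw [← lintegral_indicator_one hms, h4 _ (measurable_one.indicator hms)]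
  have h5 : ∀ γ : Γ, γ ∉ hS.toFinset → ∫⁻ p : P d, {y : YS Γ d | y.1 ∈ S ∧ y.2 ∈ W0}.indicator (1 : YS Γ d → ENNReal) (γ, p) = 0 := by
    intro γ hγ
    have h6 : ∀ p : P d, {y : YS Γ d | y.1 ∈ S ∧ y.2 ∈ W0}.indicator (1 : YS Γ d → ENNReal) (γ, p) = 0 :=
      fun p => hz (γ, p) (fun h => hγ ((Set.Finite.mem_toFinset hS).2 h))
    rw [lintegral_congr h6, lintegral_zero]
  rw [tsum_eq_sum (fun γ hγ => h5 γ hγ)]
  refine ENNReal.sum_lt_top.2 fun γ _ => ?_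
  calc ∫⁻ p : P d, {y : YS Γ d | y.1 ∈ S ∧ y.2 ∈ W0}.indicator (1 : YS Γ d → ENNReal) (γ, p)
      ≤ ∫⁻ p : P d, W0.indicator 1 p := lintegral_mono fun p => hle (γ, p)
    _ = volume W0 := lintegral_indicator_one hW0
    _ < ⊤ := hfin

omit [Group Γ] [MulAction Γ (V d)] in
lemma AFBD_meas' (h4 : ∀ f : YS Γ d → ENNReal, Measurable f → ∫⁻ y, f y ∂mY Γ d = ∑' γ : Γ, ∫⁻ p : P d, f (γ, p))
    {W0 : Set (P d)} (hW0 : MeasurableSet W0) (hfin : volume W0 < ⊤) (S : Set Γ) (hS : S.Finite) :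
    ∃ A : Set (YS Γ d), MeasurableSet A ∧ mY Γ d A < ⊤ ∧ ∀ y : YS Γ d, y.1 ∈ S → y.2 ∈ W0 → y ∈ A :=
  ⟨_, (AFBD_meas h4 hW0 hfin S hS).1, (AFBD_meas h4 hW0 hfin S hS).2, fun _ h1 h2 => ⟨h1, h2⟩⟩


/-- the Gram kernel -/
def AFBD_K (G : V d → V d →L[ℝ] V d) (g : YS Γ d → V d → ℂ) (x y : YS Γ d) : ENNReal :=
  ‖∫ z, g y z * conj (g x z) ∂mv G‖ₑ

lemma AFBD_K_meas (G : V d → V d →L[ℝ] V d) (hσ : SigmaFinite (mv G)) (hG : AFBD_G Γ W C m g) : Measurable (Function.uncurry (AFBD_K G g)) := by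
  have := hσ
  have h1 : Measurable (fun x : (YS Γ d × YS Γ d) × V d => g x.1.2 x.2 * conj (g x.1.1 x.2)) := by
    have e1 : Measurable (fun x : (YS Γ d × YS Γ d) × V d => g x.1.2 x.2) :=
      hG.meas.comp ((measurable_snd.comp measurable_fst).prodMk measurable_snd)
    have e2 : Measurable (fun x : (YS Γ d × YS Γ d) × V d => g x.1.1 x.2) :=
      hG.meas.comp ((measurable_fst.comp measurable_fst).prodMk measurable_snd)
    exact e1.mul (Complex.continuous_conj.measurable.comp e2)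
  have h2 := h1.stronglyMeasurable.integral_prod_right' (ν := mv G)
  exact h2.measurable.enorm

lemma AFBD_K_inv (G : V d → V d →L[ℝ] V d) (hFd : FdK Γ K)
    (hpres : ∀ γ : Γ, MeasurePreserving (fun x : V d => γ • x) (mv G) (mv G)) (hG : AFBD_G Γ W C m g) (γ : Γ) (x y : YS Γ d) :
    AFBD_K G g (γ • x) (γ • y) = AFBD_K G g x y := by
  unfold AFBD_K
  congr 1
  have h1 := (hpres γ).integral_comp (AFBD_emb hFd γ) (fun z => g (γ • y) z * conj (g (γ • x) z))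
  rw [← h1]
  refine integral_congr_ae (Eventually.of_forall fun z => ?_)
  show g (γ • y) (γ • z) * conj (g (γ • x) (γ • z)) = g y z * conj (g x z)
  rw [hG.eqv, hG.eqv]

/-- the coefficients of a synthesised function -/
lemma AFBD_pair (G : V d → V d →L[ℝ] V d) (hFd : FdK Γ K) (hσ : SigmaFinite (mv G)) (hσ' : SigmaFinite (mY Γ d))
    (hcomp : ∀ S : Set (V d), IsCompact S → mv G S < ⊤)
    (h4 : ∀ f : YS Γ d → ENNReal, Measurable f → ∫⁻ y, f y ∂mY Γ d = ∑' γ : Γ, ∫⁻ p : P d, f (γ, p))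
    {W0 : Set (P d)} (hW0 : MeasurableSet W0) (hfin : volume W0 < ⊤) (hW : ∀ y ∈ W, y.2 ∈ W0)
    (hG : AFBD_G Γ W C m g) {v : YS Γ d → ℂ} (hv : Measurable v) {b : ℝ} (hb : ∀ y, ‖v y‖ ≤ b) (p : YS Γ d) :
    ‖∫ z, (∫ y, v y * g y z ∂mY Γ d) * conj (g p z) ∂mv G‖ₑ ≤ ∫⁻ q, AFBD_K G g p q * ‖v q‖ₑ ∂mY Γ d := by
  have := hσ
  have := hσ'
  have hb0 : 0 ≤ b := (norm_nonneg _).trans (hb p)
  have hm0 : 0 ≤ m := AFBD_m hG
  obtain ⟨c, hc⟩ := AFBD_ball hFd {p.1} C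
  have hSf := AFBD_fin hFd c C
  obtain ⟨A, hms, hmf, hA⟩ := AFBD_meas' h4 hW0 hfin _ hSf
  obtain ⟨F2, hF2⟩ : ∃ F2 : V d → YS Γ d → ℂ, F2 = fun z q => v q * g q z * conj (g p z) := ⟨_, rfl⟩
  have hF2m : Measurable (Function.uncurry F2) := by
    have e1 : Measurable (fun x : V d × YS Γ d => g x.2 x.1) := hG.meas.comp (measurable_snd.prodMk measurable_fst)
    have e2 : Measurable (fun x : V d × YS Γ d => g p x.1) := hG.meas.comp (measurable_const.prodMk measurable_fst)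
    rw [hF2]
    exact ((hv.comp measurable_snd).mul e1).mul (Complex.continuous_conj.measurable.comp e2)
  have hSf' : ((mv G).prod (mY Γ d)) (Metric.closedBall (0 : V d) c ×ˢ A) ≠ ⊤ := by
    rw [Measure.prod_prod]
    exact (ENNReal.mul_lt_top (hcomp _ (isCompact_closedBall _ _)) hmf).ne
  have hint : Integrable (Function.uncurry F2) ((mv G).prod (mY Γ d)) := by
    rw [← integrableOn_iff_integrable_of_support_subset (s := Metric.closedBall (0 : V d) c ×ˢ A)]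
    · refine Measure.integrableOn_of_bounded (M := b * m * m) hSf' hF2m.aestronglyMeasurable
        (Eventually.of_forall fun x => ?_)
      rw [hF2]
      show ‖v x.2 * g x.2 x.1 * conj (g p x.1)‖ ≤ b * m * m
      rw [norm_mul, norm_mul, RCLike.norm_conj]
      have a1 := hb x.2
      have a2 := hG.bd x.2 x.1
      have a3 := hG.bd p x.1
      gcongr
    · intro x hx
      rw [hF2] at hx
      have h1 : v x.2 * g x.2 x.1 * conj (g p x.1) ≠ 0 := hx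
      have h2 : g x.2 x.1 ≠ 0 := fun h0 => h1 (by rw [h0, mul_zero, zero_mul])
      have h3 : g p x.1 ≠ 0 := fun h0 => h1 (by rw [h0, map_zero, mul_zero])
      obtain ⟨a1, a2⟩ := hG.supp _ _ h2
      obtain ⟨-, a3⟩ := hG.supp _ _ h3
      have h5 : ‖x.1‖ ≤ c := by
        have h6 := hc p.1 (Finset.mem_singleton_self _) _ a3
        rwa [smul_inv_smul] at h6
      exact ⟨mem_closedBall_zero_iff.2 h5, hA x.2 ⟨x.1, h5, a2⟩ (hW _ a1)⟩
  have e1 : ∫ z, (∫ y, v y * g y z ∂mY Γ d) * conj (g p z) ∂mv G = ∫ z, ∫ q, F2 z q ∂mY Γ d ∂mv G := by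
    refine integral_congr_ae (Eventually.of_forall fun z => ?_)
    rw [hF2]
    exact (integral_mul_const (conj (g p z)) (fun y => v y * g y z)).symm
  rw [e1, integral_integral_swap hint]
  refine (enorm_integral_le_lintegral_enorm _).trans (lintegral_mono fun q => ?_)
  have e2 : ∫ z, F2 z q ∂mv G = v q * ∫ z, g q z * conj (g p z) ∂mv G := by
    rw [← integral_const_mul]
    refine integral_congr_ae (Eventually.of_forall fun z => ?_)
    rw [hF2]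
    show v q * g q z * conj (g p z) = v q * (g q z * conj (g p z))
    ring
  rw [e2, enorm_mul, mul_comm]
  exact le_rfl

end main

/-- Cauchy-Schwarz -/
theorem AFBD_cs {X : Type} [MeasurableSpace X] (μ : Measure X) (f g : X → ℂ)
    (hf : Integrable (fun x => ‖f x‖ ^ 2) μ) (hg : Integrable (fun x => ‖g x‖ ^ 2) μ)
    (hfm : AEStronglyMeasurable f μ) (hgm : AEStronglyMeasurable g μ) :
    ‖∫ x, f x * conj (g x) ∂μ‖ ^ 2 ≤ (∫ x, ‖f x‖ ^ 2 ∂μ) * ∫ x, ‖g x‖ ^ 2 ∂μ := by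
  have hfg : Integrable (fun x => ‖f x‖ * ‖g x‖) μ := by
    refine ((hf.add hg).mono' (hfm.norm.mul hgm.norm) (Eventually.of_forall fun x => ?_))
    rw [Real.norm_of_nonneg (by positivity)]
    show ‖f x‖ * ‖g x‖ ≤ ‖f x‖ ^ 2 + ‖g x‖ ^ 2
    nlinarith [sq_nonneg (‖f x‖ - ‖g x‖), sq_nonneg (‖f x‖), sq_nonneg (‖g x‖)]
  have h1 : ‖∫ x, f x * conj (g x) ∂μ‖ ≤ ∫ x, ‖f x‖ * ‖g x‖ ∂μ := by
    refine (norm_integral_le_integral_norm _).trans (le_of_eq ?_)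
    simp only [norm_mul, RCLike.norm_conj]
  have h2 : ∀ s : ℝ, 0 ≤ (∫ x, ‖f x‖ ^ 2 ∂μ) * (s * s) + (-(2 * ∫ x, ‖f x‖ * ‖g x‖ ∂μ)) * s + ∫ x, ‖g x‖ ^ 2 ∂μ := by
    intro s
    have h3 : 0 ≤ ∫ x, (s * ‖f x‖ - ‖g x‖) ^ 2 ∂μ := integral_nonneg fun x => sq_nonneg _
    have h4 : ∀ x, (s * ‖f x‖ - ‖g x‖) ^ 2 = s * s * ‖f x‖ ^ 2 - 2 * s * (‖f x‖ * ‖g x‖) + ‖g x‖ ^ 2 := fun x => by ring
    simp only [h4] at h3
    have i1 := hf.const_mul (s * s)
    have i2 := hfg.const_mul (2 * s)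
    have h5 : ∫ x, (s * s * ‖f x‖ ^ 2 - 2 * s * (‖f x‖ * ‖g x‖) + ‖g x‖ ^ 2) ∂μ =
        s * s * (∫ x, ‖f x‖ ^ 2 ∂μ) - 2 * s * (∫ x, ‖f x‖ * ‖g x‖ ∂μ) + ∫ x, ‖g x‖ ^ 2 ∂μ := by
      have e1 := integral_add (i1.sub i2) hg
      have e2 := integral_sub i1 i2
      simp only [Pi.sub_apply] at e1 e2
      rw [e1, e2, integral_const_mul, integral_const_mul]
    rw [h5] at h3
    linarith
  have h5 := discrim_le_zero h2
  rw [discrim] at h5
  have h6 : ‖∫ x, f x * conj (g x) ∂μ‖ ^ 2 ≤ (∫ x, ‖f x‖ * ‖g x‖ ∂μ) ^ 2 := by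
    have := norm_nonneg (∫ x, f x * conj (g x) ∂μ)
    gcongr
  nlinarith

/-- functions of `FP` are square integrable on the window -/
theorem AFBD_fp {d : ℕ} {Γ : Type} [Group Γ] {G : V d → V d →L[ℝ] V d} {r0 R : ℝ}
    (h4 : ∀ f : YS Γ d → ENNReal, Measurable f → ∫⁻ y, f y ∂mY Γ d = ∑' γ : Γ, ∫⁻ p : P d, f (γ, p))
    {W0 : Set (P d)} (hW0 : MeasurableSet W0) (hfin : volume W0 < ⊤) (hW : ∀ y ∈ GW Γ G r0 2 R, y.2 ∈ W0) (hGWm : MeasurableSet (GW Γ G r0 2 R))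
    {Λ : Subgroup Γ} {T : Set Γ} (hTm : MeasurableSet (DT d T)) {v : YS Γ d → ℂ} (hv : FP Λ T v) :
    IntegrableOn (fun y => ‖v y‖ ^ 2) (DT d T ∩ GW Γ G r0 2 R) (mY Γ d) := by
  obtain ⟨b, hb⟩ := hv.bdd
  obtain ⟨S, hS⟩ := hv.supp
  obtain ⟨A, hms, hmf, hA⟩ := AFBD_meas' h4 hW0 hfin (S : Set Γ) S.finite_toSet
  have h1 : IntegrableOn (fun y => ‖v y‖ ^ 2) A (mY Γ d) := by
    refine Measure.integrableOn_of_bounded (M := b ^ 2) hmf.ne (hv.meas.norm.pow_const 2).aestronglyMeasurable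
      (Eventually.of_forall fun y => ?_)
    rw [Real.norm_of_nonneg (by positivity)]
    have := hb y
    have h0 := norm_nonneg (v y)
    gcongr
  refine h1.of_forall_sdiff_eq_zero (hTm.inter hGWm) fun y hy => ?_
  by_contra h0
  apply hy.2
  have h2 : v y ≠ 0 := by
    intro h3
    apply h0
    rw [h3]
    simp
  exact hA y (hS y hy.1.1 h2) (hW y hy.1.2)

/-- the norm as a lower integral -/
theorem AFBD_nP {d : ℕ} {Γ : Type} {G : V d → V d →L[ℝ] V d} {r0 R : ℝ} {T : Set Γ} {v : YS Γ d → ℂ} (hv : Measurable v) :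
    nP G r0 T 2 R v = (∫⁻ y in DT d T ∩ GW Γ G r0 2 R, ‖v y‖ₑ ^ 2 ∂mY Γ d).toReal := by
  rw [nP, integral_eq_lintegral_of_nonneg_ae (Eventually.of_forall fun p => by positivity)
    (hv.norm.pow_const 2).aestronglyMeasurable]
  congr 1
  have h1 : ∀ p, ENNReal.ofReal (‖v p‖ ^ 2) = ‖v p‖ₑ ^ 2 := fun p => by
    rw [ENNReal.ofReal_pow (norm_nonneg _), ofReal_norm]
  simp only [h1]

/-- the lower integral is finite -/
theorem AFBD_fi {X : Type} [MeasurableSpace X] {μ : Measure X} {S : Set X} {v : X → ℂ}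
    (h : IntegrableOn (fun y => ‖v y‖ ^ 2) S μ) : ∫⁻ y in S, ‖v y‖ₑ ^ 2 ∂μ ≠ ⊤ := by
  have h2 := h.2
  rw [HasFiniteIntegral] at h2
  have h1 : ∀ p, ‖‖v p‖ ^ 2‖ₑ = ‖v p‖ₑ ^ 2 := fun p => by
    rw [enorm_pow, enorm_norm]
  simp only [h1] at h2
  exact h2.ne

theorem AFBD_proof (hAFSD : AFSD_stmt) (hAFRD : AFRD_stmt) (hADMD : ADMD_stmt) (hAMVI : AMVI_stmt) (hVSH : VQ.VSH_stmt) : AFBD_stmt := by
  intro d Γ _ _ K k B r0 hFd
  obtain ⟨C0, hC0, HS⟩ := hAFSD d Γ K k B r0 hFd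
  obtain ⟨C1, hC1, HR⟩ := hAFRD d Γ K k B r0 hFd
  obtain ⟨C, hCd, hCa, hCb⟩ : ∃ C : ℝ, C = max C0 4 ∧ C0 ≤ C ∧ 4 ≤ C := ⟨_, rfl, le_max_left _ _, le_max_right _ _⟩
  refine ⟨C, by linarith, fun η hη hCη => ?_⟩
  have hη1 : C0 * η ≤ 1 := (mul_le_mul_of_nonneg_right hCa hη.le).trans hCη
  have hη2 : 4 * η ≤ 1 := (mul_le_mul_of_nonneg_right hCb hη.le).trans hCη
  obtain ⟨Kd, R0, hR0, H⟩ := HS η hη hη1
  refine ⟨Kd, max R0 C1, hR0.trans (le_max_left _ _), ?_⟩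
  intro R m t G Φ f hR hO hm ht hf Λ F T hD
  have hRa : R0 ≤ R := (le_max_left _ _).trans hR
  have hRb : C1 ≤ R := (le_max_right _ _).trans hR
  have hR1 : (1 : ℝ) ≤ R := hR0.trans hRa
  have hRpos : 0 < R := by linarith
  obtain ⟨hcount, -, -, hσ, hcomp, hpres, -, -, -⟩ := hAMVI d Γ K k B G hFd hO.cls
  obtain ⟨hσ', hprY, -, h4, hGWs, hDm⟩ := hADMD d Γ K k B G hFd hO.cls
  obtain ⟨hGWm, hGWi, hGWv⟩ := hGWs r0 2 R
  obtain ⟨hFm, hTm, hFu, hTu⟩ := hDm Λ F T hD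
  obtain ⟨hA, hB, hdm⟩ := HR Kd η m R t G Φ f hRb hO hη (by linarith) hm ht hf
  obtain ⟨hsF, haF, hdual⟩ := hdm Λ F T hD
  obtain ⟨hS1, hS2⟩ := H R m m t t G Φ f f hRa hO hm hm ht ht hf hf
  have := hσ
  have := hσ'
  have := hcount
  have hW0 : MeasurableSet {p : P d | ‖p.1‖ ≤ r0 ∧ |Ep G p| ≤ 2 * R ^ (-(1 / 4) : ℝ)} := AFBD_one Γ hGWm
  -- the kernel
  obtain ⟨g, hg⟩ : ∃ g : YS Γ d → V d → ℂ, ∀ y z, g y z = (GW Γ G r0 2 R).indicator (fun y => pF f y z) y := ⟨_, fun _ _ => rfl⟩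
  have hg1 : ∀ y ∈ GW Γ G r0 2 R, ∀ z, g y z = pF f y z := by
    intro y hy z
    rw [hg, Set.indicator_of_mem hy]
  have hg0 : ∀ y, y ∉ GW Γ G r0 2 R → ∀ z, g y z = 0 := by
    intro y hy z
    rw [hg, Set.indicator_of_notMem hy]
  have hG : AFBD_G Γ (GW Γ G r0 2 R) C1 m g := by
    refine ⟨?_, ?_, ?_, ?_, ?_⟩
    · refine AFBD_cm (fun x : YS Γ d × V d => x.1.1) (fun γ => ?_) _
        (fun γ => {x : YS Γ d × V d | x.1 ∈ GW Γ G r0 2 R}.indicator fun x => f ((γ, x.1.2) : YS Γ d) (γ⁻¹ • x.2)) (fun γ => ?_) ?_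
      · exact (measurable_fst : Measurable (Prod.fst : YS Γ d × V d → YS Γ d)) (AFBD_fst d Γ {γ})
      · refine Measurable.indicator ?_ ((measurable_fst : Measurable (Prod.fst : YS Γ d × V d → YS Γ d)) hGWm)
        have h1 : Measurable fun x : YS Γ d × V d => ((x.1.2, γ⁻¹ • x.2) : P d × V d) :=
          ((AFBD_snd d Γ).comp measurable_fst).prodMk ((AFBD_cont hFd γ⁻¹).measurable.comp measurable_snd)
        exact (hf.cont γ).measurable.comp h1
      · intro x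
        by_cases hx : x.1 ∈ GW Γ G r0 2 R
        · have h1 : x ∈ {x : YS Γ d × V d | x.1 ∈ GW Γ G r0 2 R} := hx
          rw [hg1 _ hx, Set.indicator_of_mem h1]
          rfl
        · have h1 : x ∉ {x : YS Γ d × V d | x.1 ∈ GW Γ G r0 2 R} := hx
          rw [hg0 _ hx, Set.indicator_of_notMem h1]
    · intro y
      by_cases hy : y ∈ GW Γ G r0 2 R
      · have h1 : g y = fun z => f ((y.1, y.2) : YS Γ d) (y.1⁻¹ • z) := by
          funext z
          exact hg1 y hy z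
        rw [h1]
        exact (hf.cont y.1).comp (continuous_const.prodMk (AFBD_cont hFd y.1⁻¹))
      · have h1 : g y = fun _ => 0 := by
          funext z
          exact hg0 y hy z
        rw [h1]
        exact continuous_const
    · intro y z
      by_cases hy : y ∈ GW Γ G r0 2 R
      · rw [hg1 y hy]
        exact (hA y hy z).1
      · rw [hg0 y hy, norm_zero]
        exact hm
    · intro y z h0
      by_cases hy : y ∈ GW Γ G r0 2 R
      · rw [hg1 y hy] at h0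
        exact ⟨hy, ((hA y hy z).2 h0).1⟩
      · exact absurd (hg0 y hy z) h0
    · intro γ y z
      by_cases hy : y ∈ GW Γ G r0 2 R
      · rw [hg1 y hy, hg1 _ ((hGWi γ y).2 hy), hB]
      · rw [hg0 y hy, hg0 _ (fun h => hy ((hGWi γ y).1 h))]
  have hsFe : ∀ (v : YS Γ d → ℂ) (z : V d), sF G r0 R f v z = ∫ y, v y * g y z ∂mY Γ d := by
    intro v z
    have h1 : ∫ y in GW Γ G r0 2 R, v y * g y z ∂mY Γ d = ∫ y, v y * g y z ∂mY Γ d :=
      setIntegral_eq_integral_of_forall_compl_eq_zero fun y hy => by rw [hg0 y hy, mul_zero]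
    rw [← h1]
    show ∫ y in GW Γ G r0 2 R, v y * pF f y z ∂mY Γ d = _
    refine setIntegral_congr_fun hGWm fun y hy => ?_
    show v y * pF f y z = v y * g y z
    rw [hg1 y hy]
  have haFe : ∀ (φ : V d → ℂ) (y : YS Γ d), aF G r0 R f φ y = ∫ z, φ z * conj (g y z) ∂mv G := by
    intro φ y
    unfold aF
    by_cases hy : y ∈ GW Γ G r0 2 R
    · rw [Set.indicator_of_mem hy]
      refine integral_congr_ae (Eventually.of_forall fun z => ?_)
      show φ z * conj (pF f y z) = φ z * conj (g y z)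
      rw [hg1 y hy]
    · rw [Set.indicator_of_notMem hy]
      have h1 : ∀ z, φ z * conj (g y z) = 0 := fun z => by rw [hg0 y hy, map_zero, mul_zero]
      rw [integral_congr_ae (Eventually.of_forall h1), integral_zero]
  obtain ⟨W, hWd⟩ : ∃ W : Measure (YS Γ d), W = (mY Γ d).restrict (GW Γ G r0 2 R) := ⟨_, rfl⟩
  have hsfW : SigmaFinite W := by
    rw [hWd]
    infer_instance
  obtain ⟨a, ha⟩ : ∃ a : ENNReal, a = ENNReal.ofReal (m * m * R ^ (-(3 * (d : ℝ) / 2) + C0 * η)) := ⟨_, rfl⟩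
  have hPWm : MeasurableSet (DT d T ∩ GW Γ G r0 2 R) := hTm.inter hGWm
  -- Schur
  have hK1 : ∀ x, ∫⁻ y, AFBD_K G g x y ∂W ≤ a := by
    intro x
    rw [hWd, ha]
    by_cases hx : x ∈ GW Γ G r0 2 R
    · refine le_trans (le_of_eq ?_) (hS2 x hx)
      refine setLIntegral_congr_fun hGWm fun y hy => ?_
      show ‖∫ z, g y z * conj (g x z) ∂mv G‖ₑ = ‖∫ z, pF f y z * conj (pF f x z) ∂mv G‖ₑ
      simp only [hg1 x hx, hg1 y hy]
    · have : ∀ y, AFBD_K G g x y = 0 := fun y => by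
        simp [AFBD_K, hg0 x hx]
      simp [this]
  have hK2 : ∀ y, ∫⁻ x, AFBD_K G g x y ∂W ≤ a := by
    intro y
    rw [hWd, ha]
    by_cases hy : y ∈ GW Γ G r0 2 R
    · refine le_trans (le_of_eq ?_) (hS1 y hy)
      refine setLIntegral_congr_fun hGWm fun x hx => ?_
      show ‖∫ z, g y z * conj (g x z) ∂mv G‖ₑ = ‖∫ z, pF f y z * conj (pF f x z) ∂mv G‖ₑ
      simp only [hg1 x hx, hg1 y hy]
    · have : ∀ x, AFBD_K G g x y = 0 := fun x => by
        simp [AFBD_K, hg0 y hy]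
      simp [this]
  have hresW : W.restrict (DT d T) = (mY Γ d).restrict (DT d T ∩ GW Γ G r0 2 R) := by
    rw [hWd, Measure.restrict_restrict hTm]
  have hprW : ∀ γ : Λ, MeasurePreserving (fun y : YS Γ d => γ • y) W W := by
    intro γ
    have h1 := (hprY (γ : Γ)).restrict_preimage hGWm
    have h2 : (fun y : YS Γ d => (γ : Γ) • y) ⁻¹' GW Γ G r0 2 R = GW Γ G r0 2 R := by
      ext y
      exact hGWi (γ : Γ) y
    rw [h2] at h1
    rw [hWd]
    exact h1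
  have hSch : ∀ v, FP Λ T v → ∫⁻ x in DT d T ∩ GW Γ G r0 2 R, (∫⁻ y, AFBD_K G g x y * ‖v y‖ₑ ∂W) ^ 2 ∂mY Γ d ≤
      a * a * ∫⁻ y in DT d T ∩ GW Γ G r0 2 R, ‖v y‖ₑ ^ 2 ∂mY Γ d := by
    intro v hv
    rw [← hresW]
    refine (hVSH Λ (YS Γ d) (YS Γ d) W W (DT d T) (DT d T) hprW hprW hTu hTu hTm hTm
      (AFBD_K G g) (AFBD_K_meas G hσ hG) ?_).2 a a (fun y => ‖v y‖ₑ) hv.meas.enorm ?_ hK1 hK2
    · exact fun γ x y => AFBD_K_inv G hFd hpres hG (γ : Γ) x y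
    · intro γ y
      show ‖v ((γ : Γ) • y)‖ₑ = ‖v y‖ₑ
      rw [hv.inv _ γ.2]
  have hA0 : 0 ≤ m * m * R ^ (-(3 * (d : ℝ) / 2) + C0 * η) := by positivity
  have hfp : ∀ v, FP Λ T v → IntegrableOn (fun y => ‖v y‖ ^ 2) (DT d T ∩ GW Γ G r0 2 R) (mY Γ d) := fun v hv =>
    AFBD_fp h4 hW0 hGWv (fun y hy => hy) hGWm hTm hv
  -- the first norm
  have h1 : ∀ v : YS Γ d → ℂ, FP Λ T v → nP G r0 T 2 R (aF G r0 R f (sF G r0 R f v)) ≤ (m * m * R ^ (-(3 * (d : ℝ) / 2) + C0 * η)) ^ 2 * nP G r0 T 2 R v := by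
    intro v hv
    have hv2 : FP Λ T (aF G r0 R f (sF G r0 R f v)) := haF _ (hsF v hv)
    obtain ⟨b, hb⟩ := hv.bdd
    rw [AFBD_nP hv2.meas, AFBD_nP hv.meas, ← ENNReal.toReal_ofReal (sq_nonneg (m * m * R ^ (-(3 * (d : ℝ) / 2) + C0 * η))), ← ENNReal.toReal_mul]
    refine ENNReal.toReal_mono (ENNReal.mul_ne_top ENNReal.ofReal_ne_top (AFBD_fi (hfp v hv))) ?_
    have e1 : ENNReal.ofReal ((m * m * R ^ (-(3 * (d : ℝ) / 2) + C0 * η)) ^ 2) = a * a := by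
      rw [sq, ENNReal.ofReal_mul hA0, ha]
    rw [e1]
    refine le_trans ?_ (hSch v hv)
    refine setLIntegral_mono' hPWm fun p hp => ?_
    have e2 := AFBD_pair G hFd hσ hσ' hcomp h4 hW0 hGWv (fun y hy => hy) hG hv.meas hb p
    have e3 : ∫⁻ q, AFBD_K G g p q * ‖v q‖ₑ ∂mY Γ d = ∫⁻ q, AFBD_K G g p q * ‖v q‖ₑ ∂W := by
      rw [hWd, ← lintegral_indicator hGWm]
      refine lintegral_congr fun q => ?_
      by_cases hq : q ∈ GW Γ G r0 2 R
      · rw [Set.indicator_of_mem hq]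
      · rw [Set.indicator_of_notMem hq]
        have : AFBD_K G g p q = 0 := by simp [AFBD_K, hg0 q hq]
        rw [this, zero_mul]
    have e4 : aF G r0 R f (sF G r0 R f v) p = ∫ z, (∫ y, v y * g y z ∂mY Γ d) * conj (g p z) ∂mv G := by
      rw [haFe]
      refine integral_congr_ae (Eventually.of_forall fun z => ?_)
      show sF G r0 R f v z * conj (g p z) = _
      rw [hsFe]
    rw [← e4, e3] at e2
    gcongr
  have h2 : ∀ v : YS Γ d → ℂ, FP Λ T v → nn G F (sF G r0 R f v) ≤ m * m * R ^ (-(3 * (d : ℝ) / 2) + C0 * η) * nP G r0 T 2 R v := by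
    intro v hv
    have e1 := hsF v hv
    have e2 := haF _ e1
    have e3 := hdual _ v e1 hv
    have e4 : ∫ z in F, sF G r0 R f v z * conj (sF G r0 R f v z) ∂mv G = ((nn G F (sF G r0 R f v) : ℝ) : ℂ) := by
      rw [nn, ← integral_complex_ofReal]
      congr 1
      funext z
      rw [Complex.mul_conj, Complex.normSq_eq_norm_sq]
    rw [e4] at e3
    have e5 := AFBD_cs ((mY Γ d).restrict (DT d T ∩ GW Γ G r0 2 R)) (aF G r0 R f (sF G r0 R f v)) v (hfp _ e2) (hfp _ hv)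
      e2.meas.aestronglyMeasurable hv.meas.aestronglyMeasurable
    rw [e3, Complex.norm_real, Real.norm_eq_abs, sq_abs] at e5
    have e6 : nn G F (sF G r0 R f v) ^ 2 ≤ nP G r0 T 2 R (aF G r0 R f (sF G r0 R f v)) * nP G r0 T 2 R v := e5
    have e7 := h1 v hv
    have e8 : 0 ≤ nP G r0 T 2 R v := integral_nonneg fun p => by positivity
    refine le_of_sq_le_sq ?_ (by positivity)
    calc nn G F (sF G r0 R f v) ^ 2 ≤ nP G r0 T 2 R (aF G r0 R f (sF G r0 R f v)) * nP G r0 T 2 R v := e6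
      _ ≤ ((m * m * R ^ (-(3 * (d : ℝ) / 2) + C0 * η)) ^ 2 * nP G r0 T 2 R v) * nP G r0 T 2 R v := mul_le_mul_of_nonneg_right e7 e8
      _ = (m * m * R ^ (-(3 * (d : ℝ) / 2) + C0 * η) * nP G r0 T 2 R v) ^ 2 := by ring
  have hexp : m * m * R ^ (-(3 * (d : ℝ) / 2) + C0 * η) ≤ (m * R ^ (-(3 * (d : ℝ) / 4) + C * η)) ^ 2 := by
    rw [mul_pow, sq m, ← Real.rpow_natCast (R ^ (-(3 * (d : ℝ) / 4) + C * η)) 2, ← Real.rpow_mul (by linarith)]
    refine mul_le_mul_of_nonneg_left ?_ (by positivity)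
    refine Real.rpow_le_rpow_of_exponent_le hR1 ?_
    have g1 : C0 * η ≤ C * η := mul_le_mul_of_nonneg_right hCa hη.le
    have g2 : 0 ≤ C * η := by positivity
    push_cast
    linarith
  have h3 : ∀ v : YS Γ d → ℂ, FP Λ T v → nn G F (sF G r0 R f v) ≤ (m * R ^ (-(3 * (d : ℝ) / 4) + C * η)) ^ 2 * nP G r0 T 2 R v := by
    intro v hv
    refine (h2 v hv).trans (mul_le_mul_of_nonneg_right hexp ?_)
    exact integral_nonneg fun p => by positivity
  refine ⟨h3, fun φ hφ => ?_⟩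
  have hv := haF φ hφ
  have e1 := hsF _ hv
  have e3 := hdual φ _ hφ hv
  have e4 : ∫ y in DT d T ∩ GW Γ G r0 2 R, aF G r0 R f φ y * conj (aF G r0 R f φ y) ∂mY Γ d = ((nP G r0 T 2 R (aF G r0 R f φ) : ℝ) : ℂ) := by
    rw [nP, ← integral_complex_ofReal]
    congr 1
    funext z
    rw [Complex.mul_conj, Complex.normSq_eq_norm_sq]
  rw [e4] at e3
  have hFHi : ∀ ψ, FH Λ F ψ → IntegrableOn (fun z => ‖ψ z‖ ^ 2) F (mv G) := by
    intro ψ hψ
    obtain ⟨b, hb⟩ := hψ.supp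
    obtain ⟨M, hM⟩ := (isCompact_closedBall (0 : V d) b).exists_bound_of_continuousOn hψ.cont.continuousOn
    have g1 : IntegrableOn (fun z => ‖ψ z‖ ^ 2) (Metric.closedBall 0 b) (mv G) := by
      refine Measure.integrableOn_of_bounded (M := M ^ 2) (hcomp _ (isCompact_closedBall _ _)).ne
        (hψ.cont.norm.pow 2).aestronglyMeasurable ?_
      rw [ae_restrict_iff' Metric.isClosed_closedBall.measurableSet]
      refine Eventually.of_forall fun z hz => ?_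
      rw [Real.norm_of_nonneg (by positivity)]
      have := hM z hz
      have h0 := norm_nonneg (ψ z)
      gcongr
    refine g1.of_forall_sdiff_eq_zero hFm fun z hz => ?_
    by_contra h0
    refine hz.2 (mem_closedBall_zero_iff.2 (hb z hz.1 fun h4 => h0 ?_))
    simp [h4]
  have e5 := AFBD_cs ((mv G).restrict F) φ (sF G r0 R f (aF G r0 R f φ)) (hFHi _ hφ) (hFHi _ e1)
    hφ.cont.aestronglyMeasurable e1.cont.aestronglyMeasurable
  rw [← e3, Complex.norm_real, Real.norm_eq_abs, sq_abs] at e5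
  have e6 : nP G r0 T 2 R (aF G r0 R f φ) ^ 2 ≤ nn G F φ * nn G F (sF G r0 R f (aF G r0 R f φ)) := e5
  have e7 := h3 _ hv
  have e8 : 0 ≤ nn G F φ := integral_nonneg fun p => by positivity
  have e9 : 0 ≤ nP G r0 T 2 R (aF G r0 R f φ) := integral_nonneg fun p => by positivity
  rcases e9.eq_or_lt with h0 | h0
  · rw [← h0]
    positivity
  · have e10 : nP G r0 T 2 R (aF G r0 R f φ) * nP G r0 T 2 R (aF G r0 R f φ) ≤
        ((m * R ^ (-(3 * (d : ℝ) / 4) + C * η)) ^ 2 * nn G F φ) * nP G r0 T 2 R (aF G r0 R f φ) := by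
      have := mul_le_mul_of_nonneg_left e7 e8
      nlinarith
    exact le_of_mul_le_mul_right e10 h0

end

end Pool.Agent.VD
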