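import Pool.Agent.helper55.VD.SpecE0

/-!
# MP_07c750, project VD, row EAO (operators with kernels of finite range on an abstract phase space)
-/

set_option autoImplicit false

open scoped ENNReal ComplexConjugate
open MeasureTheory Filter Set

namespace Pool.Agent.VDA

open Pool.Agent.VQ (PS KZ cmZ perZ)
open Pool.Agent.RPQ (IsOp)

section EAO

variable {Γ : Type} [Group Γ] {Y : Type} [MeasurableSpace Y] [MulAction Γ Y] {m : Measure Y} {D : Set Y} {d : Y → Y → ℝ}

theorem EAO_ms (hP : PS Γ Y m D d) : MeasurableConstSMul Γ Y := ⟨fun γ => (hP.act γ).measurable⟩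

theorem EAO_int {E : Type*} [NormedAddCommGroup E] (hP : PS Γ Y m D d) {f : Y → E} (hf : AEStronglyMeasurable f m) {B T : ℝ}
    (hB : ∀ y, ‖f y‖ ≤ B) (x : Y) (hs : ∀ y, f y ≠ 0 → d x y ≤ T) : Integrable f m := by
  obtain ⟨C, hC⟩ := hP.vol T
  have h1 : IntegrableOn f {y : Y | d x y ≤ T} m := by
    apply Measure.integrableOn_of_bounded (M := B)
    · exact ((hC x).trans_lt ENNReal.ofReal_lt_top).ne
    · exact hf
    · exact Eventually.of_forall hB
  apply h1.integrable_of_forall_notMem_eq_zero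
  intro y hy
  by_contra h
  exact hy (hs y h)

theorem EAO_bd {E : Type*} [NormedAddCommGroup E] [NormedSpace ℝ E] {C T : ℝ} (hC : ∀ x, m {y | d x y ≤ T} ≤ ENNReal.ofReal C)
    {f : Y → E} {B : ℝ} (hB : ∀ y, ‖f y‖ ≤ B) (x : Y) (hs : ∀ y, f y ≠ 0 → d x y ≤ T) : ‖∫ y, f y ∂m‖ ≤ B * max C 0 := by
  have hB0 : 0 ≤ B := (norm_nonneg _).trans (hB x)
  have h1 : ∫ y in {y : Y | d x y ≤ T}, f y ∂m = ∫ y, f y ∂m := by
    apply setIntegral_eq_integral_of_forall_compl_eq_zero
    intro y hy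
    by_contra h
    exact hy (hs y h)
  have h2 : ‖∫ y in {y : Y | d x y ≤ T}, f y ∂m‖ ≤ B * (m {y : Y | d x y ≤ T}).toReal := by
    apply norm_setIntegral_le_of_norm_le_const
    · exact (hC x).trans_lt ENNReal.ofReal_lt_top
    · exact fun y _ => hB y
  rw [← h1]
  refine h2.trans (mul_le_mul_of_nonneg_left ?_ hB0)
  rw [← ENNReal.toReal_ofReal']
  exact ENNReal.toReal_mono ENNReal.ofReal_ne_top (hC x)

theorem EAO_left (hP : PS Γ Y m D d) (f : Y → ℂ) (γ : Γ) : ∫ y, f (γ • y) ∂m = ∫ y, f y ∂m := by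
  have h1 := EAO_ms hP
  exact (hP.act γ).integral_comp (MeasurableEquiv.smul γ).measurableEmbedding f

theorem EAO_cmp (hP : PS Γ Y m D d) {K L : Y → Y → ℂ} (hK : KZ Γ d K) (hL : KZ Γ d L) : KZ Γ d (cmZ m K L) := by
  have hsf : SigmaFinite m := hP.sf
  obtain ⟨T, hT⟩ := hK.range
  obtain ⟨B, hB⟩ := hK.bdd
  obtain ⟨T', hT'⟩ := hL.range
  obtain ⟨B', hB'⟩ := hL.bdd
  obtain ⟨C, hC⟩ := hP.vol T
  refine ⟨?_, ⟨B * B' * max C 0, fun x y => ?_⟩, ?_, ?_⟩
  · have h1 : Measurable (fun q : (Y × Y) × Y => K q.1.1 q.2 * L q.2 q.1.2) := by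
      have h2 : Measurable (fun q : (Y × Y) × Y => K q.1.1 q.2) :=
        hK.meas.comp ((measurable_fst.comp measurable_fst).prodMk measurable_snd)
      have h3 : Measurable (fun q : (Y × Y) × Y => L q.2 q.1.2) :=
        hL.meas.comp (measurable_snd.prodMk (measurable_snd.comp measurable_fst))
      exact h2.mul h3
    have h4 : StronglyMeasurable (fun q : Y × Y => ∫ p, K q.1 p * L p q.2 ∂m) :=
      h1.stronglyMeasurable.integral_prod_right
    exact h4.measurable
  · have hB0 : 0 ≤ B := (norm_nonneg _).trans (hB x x)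
    apply EAO_bd hC (fun p => ?_) x (fun p hp => hT x p (left_ne_zero_of_mul hp))
    rw [norm_mul]
    exact mul_le_mul (hB _ _) (hB' _ _) (norm_nonneg _) hB0
  · intro γ x y
    unfold cmZ
    rw [← EAO_left hP _ γ]
    simp only [hK.inv, hL.inv]
  · refine ⟨T + T', fun x y hxy => ?_⟩
    have h1 : ∃ p, K x p * L p y ≠ 0 := by
      by_contra h2
      push Not at h2
      apply hxy
      unfold cmZ
      simp only [h2, integral_zero]
    obtain ⟨p, hp⟩ := h1
    have h3 := hT x p (left_ne_zero_of_mul hp)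
    have h4 := hT' p y (right_ne_zero_of_mul hp)
    exact (hP.dt x p y).trans (add_le_add h3 h4)

/-- integrability of `K y x v x` -/
theorem EAO_i1 (hP : PS Γ Y m D d) {K : Y → Y → ℂ} {v : Y → ℂ} (hK : KZ Γ d K) (hv : FB Γ v) (y : Y) :
    Integrable (fun x => K y x * v x) m := by
  obtain ⟨T, hT⟩ := hK.range
  obtain ⟨B, hB⟩ := hK.bdd
  obtain ⟨B', hB'⟩ := hv.bdd
  have hB0 : 0 ≤ B := (norm_nonneg _).trans (hB y y)
  have hKg : Measurable (fun x => K y x) := hK.meas.comp (measurable_const.prodMk measurable_id)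
  refine EAO_int hP (B := B * B') (T := T) (hKg.mul hv.meas).aestronglyMeasurable (fun x => ?_) y
    (fun x hx => hT y x (left_ne_zero_of_mul hx))
  rw [norm_mul]
  exact mul_le_mul (hB _ _) (hB' _) (norm_nonneg _) hB0

theorem EAO_fb (hP : PS Γ Y m D d) {K : Y → Y → ℂ} {v : Y → ℂ} (hK : KZ Γ d K) (hv : FB Γ v) : FB Γ (OY m K v) := by
  have hsf : SigmaFinite m := hP.sf
  obtain ⟨T, hT⟩ := hK.range
  obtain ⟨B, hB⟩ := hK.bdd
  obtain ⟨B', hB'⟩ := hv.bdd
  obtain ⟨C, hC⟩ := hP.vol T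
  refine ⟨?_, ⟨B * B' * max C 0, fun y => ?_⟩, fun γ y => ?_⟩
  · have h1 : Measurable (fun q : Y × Y => K q.1 q.2 * v q.2) := by
      have h2 : Measurable (fun q : Y × Y => K q.1 q.2) := hK.meas
      exact h2.mul (hv.meas.comp measurable_snd)
    have h4 : StronglyMeasurable (fun y : Y => ∫ x, K y x * v x ∂m) :=
      h1.stronglyMeasurable.integral_prod_right
    exact h4.measurable
  · have hB0 : 0 ≤ B := (norm_nonneg _).trans (hB y y)
    apply EAO_bd hC (fun x => ?_) y (fun x hx => hT y x (left_ne_zero_of_mul hx))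
    rw [norm_mul]
    exact mul_le_mul (hB _ _) (hB' _) (norm_nonneg _) hB0
  · unfold OY
    rw [← EAO_left hP _ γ]
    simp only [hK.inv, hv.inv]

theorem EAO_oa (hP : PS Γ Y m D d) {K : Y → Y → ℂ} {v : Y → ℂ} (hK : KZ Γ d K) (hv : FB Γ v) :
    Measurable (OA m K v) ∧ ∃ B : ℝ, ∀ y, 0 ≤ OA m K v y ∧ OA m K v y ≤ B := by
  have hsf : SigmaFinite m := hP.sf
  obtain ⟨T, hT⟩ := hK.range
  obtain ⟨B, hB⟩ := hK.bdd
  obtain ⟨B', hB'⟩ := hv.bdd
  obtain ⟨C, hC⟩ := hP.vol T
  refine ⟨?_, ⟨B * B' * max C 0, fun y => ⟨?_, ?_⟩⟩⟩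
  · have h1 : Measurable (fun q : Y × Y => ‖K q.1 q.2‖ * ‖v q.2‖) := by
      have h2 : Measurable (fun q : Y × Y => K q.1 q.2) := hK.meas
      exact h2.norm.mul (hv.meas.comp measurable_snd).norm
    have h4 : StronglyMeasurable (fun y : Y => ∫ x, ‖K y x‖ * ‖v x‖ ∂m) :=
      h1.stronglyMeasurable.integral_prod_right
    exact h4.measurable
  · exact integral_nonneg fun x => mul_nonneg (norm_nonneg _) (norm_nonneg _)
  · have hB0 : 0 ≤ B := (norm_nonneg _).trans (hB y y)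
    have h1 : ‖∫ x, ‖K y x‖ * ‖v x‖ ∂m‖ ≤ B * B' * max C 0 := by
      apply EAO_bd hC (fun x => ?_) y (fun x hx => hT y x (norm_ne_zero_iff.mp (left_ne_zero_of_mul hx)))
      rw [Real.norm_of_nonneg (mul_nonneg (norm_nonneg _) (norm_nonneg _))]
      exact mul_le_mul (hB _ _) (hB' _) (norm_nonneg _) hB0
    exact (le_abs_self _).trans h1

theorem EAO_comp (hP : PS Γ Y m D d) {K L : Y → Y → ℂ} {v : Y → ℂ} (hK : KZ Γ d K) (hL : KZ Γ d L) (hv : FB Γ v) (y : Y) :
    OY m (cmZ m K L) v y = OY m K (OY m L v) y := by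
  have hsf : SigmaFinite m := hP.sf
  obtain ⟨T, hT⟩ := hK.range
  obtain ⟨B, hB⟩ := hK.bdd
  obtain ⟨T', hT'⟩ := hL.range
  obtain ⟨B', hB'⟩ := hL.bdd
  obtain ⟨B'', hB''⟩ := hv.bdd
  obtain ⟨C, hC⟩ := hP.vol T
  obtain ⟨C', hC'⟩ := hP.vol (T + T')
  have hB0 : 0 ≤ B := (norm_nonneg _).trans (hB y y)
  have hB'0 : 0 ≤ B' := (norm_nonneg _).trans (hB' y y)
  have hKg : Measurable (fun x => K y x) := hK.meas.comp (measurable_const.prodMk measurable_id)
  have hm : Measurable (Function.uncurry fun x p => K y p * L p x * v x) := by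
    have h2 : Measurable (fun q : Y × Y => K y q.2) := hKg.comp measurable_snd
    have h3 : Measurable (fun q : Y × Y => L q.2 q.1) := hL.meas.comp (measurable_snd.prodMk measurable_fst)
    exact (h2.mul h3).mul (hv.meas.comp measurable_fst)
  have hint : Integrable (Function.uncurry fun x p => K y p * L p x * v x) (m.prod m) := by
    have h1 : IntegrableOn (Function.uncurry fun x p => K y p * L p x * v x)
        ({x : Y | d y x ≤ T + T'} ×ˢ {p : Y | d y p ≤ T}) (m.prod m) := by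
      apply Measure.integrableOn_of_bounded (M := B * B' * B'')
      · rw [Measure.prod_prod]
        exact (ENNReal.mul_lt_top ((hC' y).trans_lt ENNReal.ofReal_lt_top) ((hC y).trans_lt ENNReal.ofReal_lt_top)).ne
      · exact hm.aestronglyMeasurable
      · refine Eventually.of_forall fun q => ?_
        show ‖K y q.2 * L q.2 q.1 * v q.1‖ ≤ B * B' * B''
        rw [norm_mul, norm_mul]
        exact mul_le_mul (mul_le_mul (hB _ _) (hB' _ _) (norm_nonneg _) hB0) (hB'' _) (norm_nonneg _) (mul_nonneg hB0 hB'0)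
    apply h1.integrable_of_forall_notMem_eq_zero
    rintro ⟨x, p⟩ hq
    by_contra h
    have h0 : K y p * L p x * v x ≠ 0 := h
    apply hq
    have h3 := hT y p (left_ne_zero_of_mul (left_ne_zero_of_mul h0))
    have h4 := hT' p x (right_ne_zero_of_mul (left_ne_zero_of_mul h0))
    exact ⟨(hP.dt y p x).trans (add_le_add h3 h4), h3⟩
  have e1 : OY m (cmZ m K L) v y = ∫ x, ∫ p, K y p * L p x * v x ∂m ∂m := by
    unfold OY cmZ
    refine integral_congr_ae (Eventually.of_forall fun x => ?_)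
    exact (integral_mul_const (v x) (fun p => K y p * L p x)).symm
  have e2 : OY m K (OY m L v) y = ∫ p, ∫ x, K y p * L p x * v x ∂m ∂m := by
    unfold OY
    refine integral_congr_ae (Eventually.of_forall fun p => ?_)
    show K y p * ∫ x, L p x * v x ∂m = ∫ x, K y p * L p x * v x ∂m
    rw [← integral_const_mul]
    refine integral_congr_ae (Eventually.of_forall fun x => ?_)
    show K y p * (L p x * v x) = K y p * L p x * v x
    ring
  rw [e1, e2]
  exact integral_integral_swap hint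

theorem EAO_mem (hP : PS Γ Y m D d) {v : Y → ℂ} (hv : FB Γ v) : MemLp v 2 (m.restrict D) := by
  have hf : IsFiniteMeasure (m.restrict D) := ⟨by rw [Measure.restrict_apply_univ]; exact hP.fin⟩
  obtain ⟨B, hB⟩ := hv.bdd
  exact MemLp.of_bound hv.meas.aestronglyMeasurable B (Eventually.of_forall hB)

theorem EAO_nm (hP : PS Γ Y m D d) {v : Y → ℂ} (hv : FB Γ v) :
    Real.sqrt (nY m D v) = (eLpNorm v 2 (m.restrict D)).toReal := by
  have h1 := EAO_mem hP hv
  rw [h1.eLpNorm_eq_integral_rpow_norm (by norm_num) (by norm_num)]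
  have h0 : (0 : ℝ) ≤ ∫ a in D, ‖v a‖ ^ (2 : ℝ) ∂m := integral_nonneg fun _ => Real.rpow_nonneg (norm_nonneg _) _
  have h2 : ((2 : ℝ≥0∞)).toReal = 2 := by norm_num
  rw [h2, ENNReal.toReal_ofReal (Real.rpow_nonneg h0 _), Real.sqrt_eq_rpow]
  unfold nY
  have h3 : ∀ a, ‖v a‖ ^ (2 : ℝ) = ‖v a‖ ^ 2 := fun a => by norm_cast
  simp only [h3]
  norm_num

end EAO

theorem EAO_proof : EAO_stmt := by
  intro Γ _ Y _ _ m D d hP
  refine ⟨fun K v hK hv => ⟨EAO_fb hP hK hv, fun y => EAO_i1 hP hK hv y, fun y => ?_, EAO_oa hP hK hv⟩,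
    fun K L v hK hL hv => ⟨EAO_cmp hP hK hL, fun y => EAO_comp hP hK hL hv y⟩, fun v hv => ⟨?_, ?_, EAO_mem hP hv⟩,
    fun u v hu hv => ?_⟩
  · have h1 := (EAO_i1 hP hK hv y).norm
    simpa only [norm_mul] using h1
  · exact integral_nonneg fun y => by positivity
  · obtain ⟨B, hB⟩ := hv.bdd
    refine Measure.integrableOn_of_bounded (M := B ^ 2) hP.fin.ne (hv.meas.norm.pow_const 2).aestronglyMeasurable ?_
    · refine Eventually.of_forall fun y => ?_
      show ‖‖v y‖ ^ 2‖ ≤ B ^ 2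
      rw [Real.norm_of_nonneg (by positivity)]
      exact pow_le_pow_left₀ (norm_nonneg _) (hB y) 2
  · have huv : FB Γ (fun y => u y + v y) := by
      obtain ⟨B, hB⟩ := hu.bdd
      obtain ⟨B', hB'⟩ := hv.bdd
      refine ⟨hu.meas.add hv.meas, ⟨B + B', fun y => (norm_add_le _ _).trans (add_le_add (hB y) (hB' y))⟩, fun γ y => ?_⟩
      show u (γ • y) + v (γ • y) = u y + v y
      rw [hu.inv, hv.inv]
    rw [EAO_nm hP hu, EAO_nm hP hv, EAO_nm hP huv]
    have h1 := EAO_mem hP hu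
    have h2 := EAO_mem hP hv
    rw [← ENNReal.toReal_add h1.2.ne h2.2.ne]
    apply ENNReal.toReal_mono (ENNReal.add_lt_top.mpr ⟨h1.2, h2.2⟩).ne
    exact eLpNorm_add_le h1.1 h2.1 (by norm_num)

end Pool.Agent.VDA
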