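import Pool.Agent.helper80.VD.SpecG

/-!
# MP_07c750, project VD, row GQN (naturality of Q)
-/

set_option autoImplicit false

open scoped ContDiff Topology InnerProductSpace
open MeasureTheory Filter Set

namespace Pool.Agent.VD

theorem GQN_proof (hGLF : GLF_stmt) (hGNT : GNT_stmt) : GQN_stmt := by
  intro d Γ _ _ G hG hs hi γ p v
  have h1 := (hGNT d Γ G hG hs hi).1 γ p v v.1
  have h2 := (hGLF d Γ hs).2.2.2.2.2.2.2 γ p v
  unfold Qc
  rw [h2]
  exact h1

end Pool.Agent.VD
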