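import Pool.Agent.helper93.VD.SpecB1

/-!
# MP_07c750, project VD, row NDI (distortion along nearby orbits)
-/

set_option autoImplicit false

open scoped ContDiff Topology InnerProductSpace
open MeasureTheory Filter Set

namespace Pool.Agent.VD

theorem NDI_geo {r : ℝ} (h0 : 0 ≤ r) (h1 : r < 1) (n : ℕ) : ∑ i ∈ Finset.range n, r ^ i ≤ (1 - r)⁻¹ := by
  rw [← tsum_geometric_of_lt_one h0 h1]
  exact (summable_geometric_of_lt_one h0 h1).sum_le_tsum _ fun i _ => pow_nonneg h0 i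

theorem NDI_exp {μ : ℝ} (hμ : 0 < μ) (n : ℕ) :
    ∑ i ∈ Finset.range n, (Real.exp (-(μ * i)) + Real.exp (-(μ * (n - i)))) ≤ 2 * (1 - Real.exp (-μ))⁻¹ := by
  have hr0 : 0 ≤ Real.exp (-μ) := (Real.exp_pos _).le
  have hr1 : Real.exp (-μ) < 1 := by
    rw [Real.exp_lt_one_iff]
    linarith
  have h1 : ∀ i : ℕ, Real.exp (-(μ * i)) = Real.exp (-μ) ^ i := by
    intro i
    rw [← Real.exp_nat_mul]
    congr 1
    ring
  have h2 : ∀ i ∈ Finset.range n, Real.exp (-(μ * (n - i))) ≤ Real.exp (-μ) ^ (n - 1 - i) := by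
    intro i hi
    rw [Finset.mem_range] at hi
    rw [← Real.exp_nat_mul]
    apply Real.exp_le_exp.2
    have h3 : ((n - 1 - i : ℕ) : ℝ) = n - 1 - i := by
      rw [Nat.cast_sub (by omega), Nat.cast_sub (by omega)]
      simp
    rw [h3]
    nlinarith
  rw [Finset.sum_add_distrib]
  have h4 : ∑ i ∈ Finset.range n, Real.exp (-(μ * i)) ≤ (1 - Real.exp (-μ))⁻¹ := by
    simp only [h1]
    exact NDI_geo hr0 hr1 n
  have h5 : ∑ i ∈ Finset.range n, Real.exp (-(μ * (n - i))) ≤ (1 - Real.exp (-μ))⁻¹ := by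
    refine (Finset.sum_le_sum h2).trans ?_
    rw [Finset.sum_range_reflect (fun i => Real.exp (-μ) ^ i) n]
    exact NDI_geo hr0 hr1 n
  linarith

theorem NDI_proof (hNBD : NBD_stmt) (hNDE : NDE_stmt) (hLDI : LDI_stmt) (hLPC : LPC_stmt) : NDI_stmt := by
  intro m c C e0 hc hC he0
  obtain ⟨e1, μ, K1, he1, he10, hμ, hK1, hB⟩ := hNBD m c C e0 hc hC he0
  obtain ⟨K2, hK2, hD⟩ := hLDI m c C hc hC
  obtain ⟨K0, -, hP⟩ := hLPC m c C hc hC
  have hC0 : 0 ≤ C := zero_le_one.trans hC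
  have hK10 : 0 ≤ K1 := zero_le_one.trans hK1
  have hK20 : 0 ≤ K2 := zero_le_one.trans hK2
  have hg : 0 ≤ (1 - Real.exp (-μ))⁻¹ := by
    rw [inv_nonneg, sub_nonneg, Real.exp_le_one_iff]
    linarith
  obtain ⟨K3, hK3⟩ : ∃ K3 : ℝ, K3 = K2 * (C * K1 * (2 * e1) * (2 * (1 - Real.exp (-μ))⁻¹)) := ⟨_, rfl⟩
  have hK30 : 0 ≤ K3 := by rw [hK3]; positivity
  refine ⟨e1, Real.exp K3, he1, he10, Real.one_le_exp hK30, ?_⟩
  intro F n a b hF hn ha hb
  have hlt : ∀ x : Z m, ‖x‖ ≤ e1 → x ∈ Metric.ball (0 : Z m) e0 := by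
    intro x hx
    rw [mem_ball_zero_iff]
    linarith
  obtain ⟨L, hL, hLa, -, hLd⟩ := hNDE m c C e0 F n a he0 hF fun i hi => by
    have := hlt _ (ha i hi.le)
    rwa [mem_ball_zero_iff] at this
  obtain ⟨L', hL', hLb, -, hLd'⟩ := hNDE m c C e0 F n b he0 hF fun i hi => by
    have := hlt _ (hb i hi.le)
    rwa [mem_ball_zero_iff] at this
  have hpos : 0 < dB (pl L n) := (hP L hL n hn 0).2.2.2.2
  have hpos' : 0 < dB (pl L' n) := (hP L' hL' n hn 0).2.2.2.2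
  rw [hLd, hLd']
  refine ⟨hpos, ?_⟩
  have hpa : POrb F n e1 0 (fun i => it F i a) := by
    refine ⟨fun i _ => ?_, ha⟩
    show ‖it F (i + 1) a - F i (it F i a)‖ ≤ 0
    have e : it F (i + 1) a = F i (it F i a) := rfl
    rw [e, sub_self, norm_zero]
  have hpb : POrb F n e1 0 (fun i => it F i b) := by
    refine ⟨fun i _ => ?_, hb⟩
    show ‖it F (i + 1) b - F i (it F i b)‖ ≤ 0
    have e : it F (i + 1) b = F i (it F i b) := rfl
    rw [e, sub_self, norm_zero]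
  have hfst : ∀ i ≤ n, ‖(it F i a - it F i b).1‖ ≤ 2 * e1 := by
    intro i hi
    have h1 := norm_fst_le (it F i a - it F i b)
    have h2 := norm_sub_le (it F i a) (it F i b)
    have h3 := ha i hi
    have h4 := hb i hi
    linarith
  have hdiff : ∀ i ∈ Finset.range n, ‖L i - L' i‖ ≤ C * K1 * (2 * e1) * (Real.exp (-(μ * i)) + Real.exp (-(μ * (n - i)))) := by
    intro i hi
    rw [Finset.mem_range] at hi
    rw [hLa i hi, hLb i hi]
    have h1 := (hF i).lip _ (hlt _ (ha i hi.le)) _ (hlt _ (hb i hi.le))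
    have h2 := hB F n 0 _ _ hF hn le_rfl hpa hpb i hi.le
    have h3 : ‖(it F 0 a - it F 0 b).1‖ ≤ 2 * e1 := hfst 0 (Nat.zero_le _)
    have h4 : ‖(it F n a - it F n b).1‖ ≤ 2 * e1 := hfst n le_rfl
    have h5 : ‖it F i a - it F i b‖ ≤ K1 * (0 + Real.exp (-(μ * i)) * (2 * e1) + Real.exp (-(μ * (n - i))) * (2 * e1)) := by
      refine h2.trans (mul_le_mul_of_nonneg_left ?_ hK10)
      have h6 := mul_le_mul_of_nonneg_left h3 (Real.exp_pos (-(μ * i))).le
      have h7 := mul_le_mul_of_nonneg_left h4 (Real.exp_pos (-(μ * (n - i)))).le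
      linarith
    calc ‖fderiv ℝ (F i) (it F i a) - fderiv ℝ (F i) (it F i b)‖ ≤ C * ‖it F i a - it F i b‖ := h1
      _ ≤ C * (K1 * (0 + Real.exp (-(μ * i)) * (2 * e1) + Real.exp (-(μ * (n - i))) * (2 * e1))) :=
        mul_le_mul_of_nonneg_left h5 hC0
      _ = _ := by ring
  have hsum : ∑ i ∈ Finset.range n, ‖L i - L' i‖ ≤ C * K1 * (2 * e1) * (2 * (1 - Real.exp (-μ))⁻¹) := by
    refine (Finset.sum_le_sum hdiff).trans ?_
    rw [← Finset.mul_sum]
    exact mul_le_mul_of_nonneg_left (NDI_exp hμ n) (by positivity)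
  have h1 := (abs_le.1 ((hD L L' hL hL' n hn).trans (mul_le_mul_of_nonneg_left hsum hK20))).2
  rw [← hK3] at h1
  have h2 : Real.log (dB (pl L n)) ≤ K3 + Real.log (dB (pl L' n)) := by linarith
  calc dB (pl L n) = Real.exp (Real.log (dB (pl L n))) := (Real.exp_log hpos).symm
    _ ≤ Real.exp (K3 + Real.log (dB (pl L' n))) := Real.exp_le_exp.2 h2
    _ = Real.exp K3 * dB (pl L' n) := by rw [Real.exp_add, Real.exp_log hpos']

end Pool.Agent.VD
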