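import Pool.Agent.helper11.VD.SpecR

/-!
# MP_07c750, project VD, row NTD (nets of bumps)
-/

set_option autoImplicit false

open scoped ContDiff Topology InnerProductSpace ENNReal
open MeasureTheory Filter Set

namespace Pool.Agent.VD

open Pool.Agent.RPQ (PN PJ UN upd)
open Pool.Agent.VQ (rk)
open Pool.Agent.VN (aN)

noncomputable section

variable {d : ℕ}

/-- periodization of a bump -/
def NTD_p (Γ : Type) [Group Γ] [MulAction Γ (V d)] (b : V d → ℝ) (ρ : ℝ) (q x : V d) : ℝ := ∑ᶠ γ : Γ, b (ρ⁻¹ • (γ • x - q))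

theorem NTD_nz {b : V d → ℝ} (hb0 : ∀ u, 1 ≤ ‖u‖ → b u = 0) {ρ : ℝ} (hρ : 0 < ρ) {y : V d} (h : b (ρ⁻¹ • y) ≠ 0) : ‖y‖ < ρ := by
  by_contra h1
  push Not at h1
  apply h
  apply hb0
  rw [norm_smul, Real.norm_of_nonneg (inv_nonneg.2 hρ.le), ← div_eq_inv_mul, le_div_iff₀ hρ, one_mul]
  exact h1

/-- at most one term -/
theorem NTD_one {Γ : Type} [Group Γ] [MulAction Γ (V d)] {K : Set (V d)} {r0 : ℝ}
    (hr0 : ∀ p ∈ K, ∀ (x : V d) (γ γ' : Γ), ‖γ • x - p‖ ≤ r0 → ‖γ' • x - p‖ ≤ r0 → γ = γ')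
    {b : V d → ℝ} (hb0 : ∀ u, 1 ≤ ‖u‖ → b u = 0) {ρ : ℝ} (hρ : 0 < ρ) (hρr : ρ ≤ r0) {q : V d} (hq : q ∈ K) (x : V d) (γ : Γ)
    (hγ : ‖γ • x - q‖ ≤ ρ) : NTD_p Γ b ρ q x = b (ρ⁻¹ • (γ • x - q)) := by
  unfold NTD_p
  apply finsum_eq_single
  intro γ' hne
  by_contra h
  exact hne (hr0 q hq x γ' γ ((NTD_nz hb0 hρ h).le.trans hρr) (hγ.trans hρr))

/-- the local finite sum -/
theorem NTD_loc {Γ : Type} [Group Γ] [MulAction Γ (V d)] {K L : Set (V d)} {A : Finset Γ}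
    (hA : ∀ γ : Γ, (∃ y ∈ Metric.cthickening 1 L, γ • y ∈ Metric.cthickening 1 K) → γ ∈ A)
    {b : V d → ℝ} (hb0 : ∀ u, 1 ≤ ‖u‖ → b u = 0) {ρ : ℝ} (hρ : 0 < ρ) (hρ1 : ρ ≤ 1) {q : V d} (hq : q ∈ K) {x : V d} (hx : x ∈ L) :
    ∀ᶠ y in 𝓝 x, NTD_p Γ b ρ q y = ∑ γ ∈ A, b (ρ⁻¹ • (γ • y - q)) := by
  filter_upwards [Metric.ball_mem_nhds x one_pos] with y hy
  unfold NTD_p
  apply finsum_eq_sum_of_support_subset
  intro γ hγ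
  rw [Function.mem_support] at hγ
  rw [Finset.mem_coe]
  apply hA
  refine ⟨y, Metric.mem_cthickening_of_dist_le y x 1 L hx (Metric.mem_ball.1 hy).le, ?_⟩
  apply Metric.mem_cthickening_of_dist_le _ q 1 K hq
  rw [dist_eq_norm]
  exact (NTD_nz hb0 hρ hγ).le.trans hρ1

theorem NTD_term {Γ : Type} [Group Γ] [MulAction Γ (V d)] (hs : ∀ γ : Γ, ContDiff ℝ ∞ fun x : V d => γ • x) {b : V d → ℝ}
    (hb : ContDiff ℝ ∞ b) (ρ : ℝ) (q : V d) (γ : Γ) : ContDiff ℝ ∞ fun y : V d => b (ρ⁻¹ • (γ • y - q)) :=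
  hb.comp (((hs γ).sub contDiff_const).const_smul ρ⁻¹)

theorem NTD_A {Γ : Type} [Group Γ] [MulAction Γ (V d)] {K : Set (V d)} (hF : FdK Γ K) {L : Set (V d)} (hL : IsCompact L) :
    ∃ A : Finset Γ, ∀ γ : Γ, (∃ y ∈ Metric.cthickening 1 L, γ • y ∈ Metric.cthickening 1 K) → γ ∈ A := by
  have h1 := hF.proper (Metric.cthickening 1 L ∪ Metric.cthickening 1 K) (hL.cthickening.union hF.compact.cthickening)
  refine ⟨h1.toFinset, fun γ => ?_⟩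
  rintro ⟨y, hy, hy'⟩
  rw [Set.Finite.mem_toFinset]
  exact ⟨y, Or.inl hy, Or.inr hy'⟩

theorem NTD_smooth {Γ : Type} [Group Γ] [MulAction Γ (V d)] {K : Set (V d)} (hF : FdK Γ K) {b : V d → ℝ}
    (hb : ContDiff ℝ ∞ b) (hb0 : ∀ u, 1 ≤ ‖u‖ → b u = 0) {ρ : ℝ} (hρ : 0 < ρ) (hρ1 : ρ ≤ 1) {q : V d} (hq : q ∈ K) :
    ContDiff ℝ ∞ (NTD_p Γ b ρ q) := by
  rw [contDiff_iff_contDiffAt]
  intro x
  obtain ⟨A, hA⟩ := NTD_A hF (L := {x}) isCompact_singleton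
  have h1 := NTD_loc hA hb0 hρ hρ1 hq (mem_singleton x)
  have h2 : ContDiff ℝ ∞ fun y : V d => ∑ γ ∈ A, b (ρ⁻¹ • (γ • y - q)) :=
    ContDiff.sum fun γ _ => NTD_term hF.smooth hb ρ q γ
  exact h2.contDiffAt.congr_of_eventuallyEq h1

/-- bounds for the derivatives of the elements of a finite set -/
theorem NTD_M {Γ : Type} [Group Γ] [MulAction Γ (V d)] (hs : ∀ γ : Γ, ContDiff ℝ ∞ fun x : V d => γ • x) {L : Set (V d)}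
    (hL : IsCompact L) (A : Finset Γ) (n : ℕ) :
    ∃ M : ℝ, 1 ≤ M ∧ ∀ γ ∈ A, ∀ x ∈ L, ∀ i, i ≤ n → ‖iteratedFDeriv ℝ i (fun x : V d => γ • x) x‖ ≤ M := by
  classical
  have h1 : ∀ (γ : Γ) (i : ℕ), ∃ M : ℝ, 0 ≤ M ∧ ∀ x ∈ L, ‖iteratedFDeriv ℝ i (fun x : V d => γ • x) x‖ ≤ M := by
    intro γ i
    have hc : Continuous (iteratedFDeriv ℝ i (fun x : V d => γ • x)) :=
      (hs γ).continuous_iteratedFDeriv (by exact_mod_cast le_top)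
    obtain ⟨M, hM⟩ := hL.exists_bound_of_continuousOn hc.continuousOn
    exact ⟨max M 0, le_max_right _ _, fun x hx => (hM x hx).trans (le_max_left _ _)⟩
  choose M hM0 hM using h1
  refine ⟨1 + ∑ γ ∈ A, ∑ i ∈ Finset.range (n + 1), M γ i, ?_, ?_⟩
  · have : 0 ≤ ∑ γ ∈ A, ∑ i ∈ Finset.range (n + 1), M γ i := Finset.sum_nonneg fun γ _ => Finset.sum_nonneg fun i _ => hM0 γ i
    linarith
  · intro γ hγ x hx i hi
    have h2 : M γ i ≤ ∑ i ∈ Finset.range (n + 1), M γ i :=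
      Finset.single_le_sum (f := fun i => M γ i) (fun j _ => hM0 γ j) (Finset.mem_range.2 (by omega))
    have h3 : ∑ i ∈ Finset.range (n + 1), M γ i ≤ ∑ γ ∈ A, ∑ i ∈ Finset.range (n + 1), M γ i :=
      Finset.single_le_sum (f := fun γ => ∑ i ∈ Finset.range (n + 1), M γ i) (fun γ _ => Finset.sum_nonneg fun i _ => hM0 γ i) hγ
    have h4 := hM γ i x hx
    linarith

/-- the bound for one element of the group -/
theorem NTD_b1 {Γ : Type} [Group Γ] [MulAction Γ (V d)] (hs : ∀ γ : Γ, ContDiff ℝ ∞ fun x : V d => γ • x) {b : V d → ℝ}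
    (hb0 : ∀ u, 1 ≤ ‖u‖ → b u = 0) {ρ : ℝ} (hρ : 0 < ρ) {n : ℕ} {C0 : ℝ} (hC0 : 0 ≤ C0)
    {J : ℕ} {p : Fin J → V d} (hp : ∀ x : V d, {j : Fin J | ‖x - p j‖ ≤ ρ}.ncard ≤ 10 ^ d) {ξ : Fin J → ℝ} (hξ : ∀ j, |ξ j| ≤ 1)
    {x : V d} {γ : Γ} (hder : ∀ j, ‖iteratedFDeriv ℝ n (fun y : V d => b (ρ⁻¹ • (γ • y - p j))) x‖ ≤ C0 / ρ ^ n) :
    ‖∑ j, ξ j • iteratedFDeriv ℝ n (fun y : V d => b (ρ⁻¹ • (γ • y - p j))) x‖ ≤ 10 ^ d * C0 / ρ ^ n := by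
  classical
  have hz : ∀ j, ρ < ‖γ • x - p j‖ → iteratedFDeriv ℝ n (fun y : V d => b (ρ⁻¹ • (γ • y - p j))) x = 0 := by
    intro j hj
    have hc : Continuous fun y : V d => ‖γ • y - p j‖ := ((hs γ).continuous.sub continuous_const).norm
    have h1 : (fun y : V d => b (ρ⁻¹ • (γ • y - p j))) =ᶠ[𝓝 x] fun _ => 0 := by
      filter_upwards [hc.continuousAt.eventually (lt_mem_nhds hj)] with y hy
      by_contra h
      exact absurd (NTD_nz hb0 hρ h) (not_lt.2 hy.le)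
    rw [(h1.iteratedFDeriv ℝ n).eq_of_nhds, iteratedFDeriv_fun_zero]
    rfl
  obtain ⟨B, hB⟩ : ∃ B : Finset (Fin J), B = Finset.univ.filter fun j => ‖γ • x - p j‖ ≤ ρ := ⟨_, rfl⟩
  have h1 : ∑ j, ξ j • iteratedFDeriv ℝ n (fun y : V d => b (ρ⁻¹ • (γ • y - p j))) x =
      ∑ j ∈ B, ξ j • iteratedFDeriv ℝ n (fun y : V d => b (ρ⁻¹ • (γ • y - p j))) x := by
    symm
    apply Finset.sum_subset (Finset.subset_univ _)
    intro j _ hj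
    rw [hB, Finset.mem_filter, not_and] at hj
    rw [hz j (not_le.1 (hj (Finset.mem_univ _))), smul_zero]
  have hBc : (B.card : ℝ) ≤ 10 ^ d := by
    have h2 := hp (γ • x)
    have h3 : {j : Fin J | ‖γ • x - p j‖ ≤ ρ} = (B : Set (Fin J)) := by
      rw [hB, Finset.coe_filter]
      ext j
      simp
    rw [h3, Set.ncard_coe_finset] at h2
    exact_mod_cast h2
  have hq : 0 ≤ C0 / ρ ^ n := by positivity
  rw [h1]
  calc ‖∑ j ∈ B, ξ j • iteratedFDeriv ℝ n (fun y : V d => b (ρ⁻¹ • (γ • y - p j))) x‖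
      ≤ ∑ j ∈ B, ‖ξ j • iteratedFDeriv ℝ n (fun y : V d => b (ρ⁻¹ • (γ • y - p j))) x‖ := norm_sum_le _ _
    _ ≤ ∑ _j ∈ B, C0 / ρ ^ n := by
        apply Finset.sum_le_sum
        intro j _
        rw [norm_smul, Real.norm_eq_abs]
        calc |ξ j| * ‖iteratedFDeriv ℝ n (fun y : V d => b (ρ⁻¹ • (γ • y - p j))) x‖ ≤ 1 * (C0 / ρ ^ n) :=
              mul_le_mul (hξ j) (hder j) (norm_nonneg _) zero_le_one
          _ = C0 / ρ ^ n := one_mul _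
    _ = B.card * (C0 / ρ ^ n) := by rw [Finset.sum_const, nsmul_eq_mul]
    _ ≤ 10 ^ d * (C0 / ρ ^ n) := mul_le_mul_of_nonneg_right hBc hq
    _ = 10 ^ d * C0 / ρ ^ n := by ring

/-- all derivatives -/
theorem NTD_der {Γ : Type} [Group Γ] [MulAction Γ (V d)] {K : Set (V d)} (hF : FdK Γ K) {b : V d → ℝ}
    (hb : ContDiff ℝ ∞ b) (hb0 : ∀ u, 1 ≤ ‖u‖ → b u = 0)
    (hbd : ∀ (n : ℕ) (M : ℝ), 1 ≤ M → ∃ C : ℝ, 0 ≤ C ∧ ∀ (f : V d → V d) (x p : V d) (ρ : ℝ), ContDiff ℝ ∞ f → 0 < ρ → ρ ≤ 1 →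
      (∀ i, 1 ≤ i → i ≤ n → ‖iteratedFDeriv ℝ i f x‖ ≤ M) → ‖iteratedFDeriv ℝ n (fun y => b (ρ⁻¹ • (f y - p))) x‖ ≤ C / ρ ^ n)
    {L : Set (V d)} (hL : IsCompact L) (n : ℕ) : ∃ C : ℝ, 0 ≤ C ∧ ∀ (ρ : ℝ), 0 < ρ → ρ ≤ 1 → ∀ (J : ℕ) (p : Fin J → V d),
      (∀ j, p j ∈ K) → (∀ x : V d, {j : Fin J | ‖x - p j‖ ≤ ρ}.ncard ≤ 10 ^ d) → ∀ ξ : Fin J → ℝ, (∀ j, |ξ j| ≤ 1) →
      ∀ x ∈ L, ‖iteratedFDeriv ℝ n (fun x => ∑ j, ξ j * NTD_p Γ b ρ (p j) x) x‖ ≤ C / ρ ^ n := by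
  obtain ⟨A, hA⟩ := NTD_A hF hL
  obtain ⟨M, hM1, hM⟩ := NTD_M hF.smooth hL A n
  obtain ⟨C0, hC0, hC⟩ := hbd n M hM1
  refine ⟨A.card * (10 ^ d * C0), by positivity, ?_⟩
  intro ρ hρ hρ1 J p hpK hp ξ hξ x hx
  have hloc : (fun x => ∑ j, ξ j * NTD_p Γ b ρ (p j) x) =ᶠ[𝓝 x]
      fun y => ∑ γ ∈ A, ∑ j, ξ j • b (ρ⁻¹ • (γ • y - p j)) := by
    have h1 : ∀ᶠ y in 𝓝 x, ∀ j, NTD_p Γ b ρ (p j) y = ∑ γ ∈ A, b (ρ⁻¹ • (γ • y - p j)) :=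
      eventually_all.2 fun j => NTD_loc hA hb0 hρ hρ1 (hpK j) hx
    filter_upwards [h1] with y hy
    rw [Finset.sum_comm]
    apply Finset.sum_congr rfl
    intro j _
    rw [hy j, Finset.mul_sum]
    rfl
  have hcd : ∀ (γ : Γ) (j : Fin J), ContDiffAt ℝ n (fun y : V d => b (ρ⁻¹ • (γ • y - p j))) x := fun γ j =>
    ((NTD_term hF.smooth hb ρ (p j) γ).of_le (by exact_mod_cast le_top)).contDiffAt
  rw [(hloc.iteratedFDeriv ℝ n).eq_of_nhds]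
  rw [iteratedFDeriv_fun_sum_apply (fun γ _ => ContDiffAt.sum fun j _ => (hcd γ j).const_smul (ξ j))]
  have h2 : ∀ γ ∈ A, iteratedFDeriv ℝ n (fun y => ∑ j, ξ j • b (ρ⁻¹ • (γ • y - p j))) x =
      ∑ j, ξ j • iteratedFDeriv ℝ n (fun y : V d => b (ρ⁻¹ • (γ • y - p j))) x := by
    intro γ _
    rw [iteratedFDeriv_fun_sum_apply (fun j _ => (hcd γ j).const_smul (ξ j))]
    apply Finset.sum_congr rfl
    intro j _
    exact iteratedFDeriv_const_smul_apply' (hcd γ j)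
  rw [Finset.sum_congr rfl h2]
  calc ‖∑ γ ∈ A, ∑ j, ξ j • iteratedFDeriv ℝ n (fun y : V d => b (ρ⁻¹ • (γ • y - p j))) x‖
      ≤ ∑ γ ∈ A, ‖∑ j, ξ j • iteratedFDeriv ℝ n (fun y : V d => b (ρ⁻¹ • (γ • y - p j))) x‖ := norm_sum_le _ _
    _ ≤ ∑ _γ ∈ A, 10 ^ d * C0 / ρ ^ n := by
        apply Finset.sum_le_sum
        intro γ hγ
        apply NTD_b1 hF.smooth hb0 hρ hC0 hp hξ
        intro j
        exact hC (fun y => γ • y) x (p j) ρ (hF.smooth γ) hρ hρ1 fun i _ hi => hM γ hγ x hx i hi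
    _ = A.card * (10 ^ d * C0) / ρ ^ n := by
        rw [Finset.sum_const, nsmul_eq_mul]
        ring

theorem NTD_proof (hINC : INC_stmt) (hNPD : NPD_stmt) (hBPD : BPD_stmt) : NTD_stmt := by
  intro d Γ _ _ K hF
  obtain ⟨r0, hr0, hr1, hinc⟩ := hINC d Γ K hF
  obtain ⟨b, hb, hb01, hb1, hb0, hbd⟩ := hBPD d
  have hder := fun (L : Set (V d)) (hL : IsCompact L) (n : ℕ) => NTD_der hF hb hb0 hbd hL n
  have hC : ∃ C : Set (V d) → ℕ → ℝ, (∀ L n, 0 ≤ C L n) ∧ ∀ L, IsCompact L → ∀ n (ρ : ℝ), 0 < ρ → ρ ≤ 1 → ∀ (J : ℕ) (p : Fin J → V d),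
      (∀ j, p j ∈ K) → (∀ x : V d, {j : Fin J | ‖x - p j‖ ≤ ρ}.ncard ≤ 10 ^ d) → ∀ ξ : Fin J → ℝ, (∀ j, |ξ j| ≤ 1) →
      ∀ x ∈ L, ‖iteratedFDeriv ℝ n (fun x => ∑ j, ξ j * NTD_p Γ b ρ (p j) x) x‖ ≤ C L n / ρ ^ n := by
    have h1 : ∀ (L : Set (V d)) (n : ℕ), ∃ C : ℝ, 0 ≤ C ∧ (IsCompact L → ∀ (ρ : ℝ), 0 < ρ → ρ ≤ 1 → ∀ (J : ℕ) (p : Fin J → V d),
        (∀ j, p j ∈ K) → (∀ x : V d, {j : Fin J | ‖x - p j‖ ≤ ρ}.ncard ≤ 10 ^ d) → ∀ ξ : Fin J → ℝ, (∀ j, |ξ j| ≤ 1) →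
        ∀ x ∈ L, ‖iteratedFDeriv ℝ n (fun x => ∑ j, ξ j * NTD_p Γ b ρ (p j) x) x‖ ≤ C / ρ ^ n) := by
      intro L n
      by_cases hL : IsCompact L
      · obtain ⟨C, hC0, hC⟩ := hder L hL n
        exact ⟨C, hC0, fun _ => hC⟩
      · exact ⟨0, le_rfl, fun h => absurd h hL⟩
    choose C hC0 hC using h1
    exact ⟨C, hC0, fun L hL n => hC L n hL⟩
  obtain ⟨C, hC0, hC⟩ := hC
  refine ⟨C, r0, hC0, hr0, hr1, ?_⟩
  intro ρ hρ hρr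
  have hρ1 : ρ ≤ 1 := hρr.trans hr1
  obtain ⟨J, p, hpK, hcov, hcnt⟩ := hNPD d K (ρ / 4) hF.compact (by positivity)
  have h4 : 4 * (ρ / 4) = ρ := by ring
  rw [h4] at hcnt
  refine ⟨J, p, fun j => NTD_p Γ b ρ (p j), ?_, ?_⟩
  · obtain ⟨γ, hγ⟩ := hF.cover 0
    obtain ⟨j, _⟩ := hcov _ hγ
    have := j.pos
    omega
  refine ⟨hpK, hcov, ?_, fun j => NTD_smooth hF hb hb0 hρ hρ1 (hpK j), ?_, ?_, ?_, ?_⟩
  · intro j γ x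
    show NTD_p Γ b ρ (p j) (γ • x) = NTD_p Γ b ρ (p j) x
    unfold NTD_p
    rw [← finsum_comp (g := fun σ : Γ => b (ρ⁻¹ • (σ • x - p j))) (fun σ : Γ => σ * γ) (Equiv.mulRight γ).bijective]
    refine finsum_congr fun σ => ?_
    rw [mul_smul]
  · intro j x
    by_cases h : ∃ γ : Γ, b (ρ⁻¹ • (γ • x - p j)) ≠ 0
    · obtain ⟨γ, hγ⟩ := h
      rw [NTD_one hinc hb0 hρ hρr (hpK j) x γ (NTD_nz hb0 hρ hγ).le]
      exact hb01 _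
    · push Not at h
      have h1 : NTD_p Γ b ρ (p j) x = 0 := by
        unfold NTD_p
        simp only [h]
        exact finsum_zero
      rw [h1]
      exact ⟨le_rfl, zero_le_one⟩
  · intro j x γ hγ
    show NTD_p Γ b ρ (p j) x = 1
    rw [NTD_one hinc hb0 hρ hρr (hpK j) x γ (hγ.trans (by linarith))]
    apply hb1
    rw [norm_smul, Real.norm_of_nonneg (inv_nonneg.2 hρ.le), ← div_eq_inv_mul, div_le_iff₀ hρ]
    linarith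
  · intro j x hx
    by_contra h
    push Not at h
    apply hx
    show NTD_p Γ b ρ (p j) x = 0
    unfold NTD_p
    have h1 : ∀ γ : Γ, b (ρ⁻¹ • (γ • x - p j)) = 0 := by
      intro γ
      by_contra h2
      exact absurd (NTD_nz hb0 hρ h2) (not_lt.2 (h γ).le)
    simp only [h1]
    exact finsum_zero
  · intro L hL n ξ hξ x hx
    exact hC L hL n ρ hρ hρ1 J p hpK hcnt ξ hξ x hx

end

end Pool.Agent.VD
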