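import Pool.Agent.helper84.VD.SpecB2

/-!
# MP_07c750, project VD, row SPQ (the Poincare map is hyperbolic and symplectic)
-/

set_option autoImplicit false

open scoped ContDiff Topology InnerProductSpace ENNReal
open MeasureTheory Filter Set

namespace Pool.Agent.VD

noncomputable section

theorem SPQ_ham {d : ℕ} {G : V d → V d →L[ℝ] V d} {p : P d} (h : nrm G p = 1) : Ham G p = 1 / 2 := by
  unfold nrm at h
  unfold Ham
  rw [Real.sqrt_eq_one] at h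
  rw [h]

/-- the derivative of the chart -/
theorem SPQ_kc {m : ℕ} {C r : ℝ} {G : V (m + 1) → V (m + 1) →L[ℝ] V (m + 1)} {z : P (m + 1)} {e : W m →L[ℝ] V (m + 1)}
    {κ : Z m → P (m + 1)} (hK : KC C r G z e κ) (hfr : Frm G z e) (hs : ContDiff ℝ ∞ (Ham G)) (hl : IsLinearMap ℝ (LL G z e))
    {a : Z m} (ha : ‖a‖ < r) (v : Z m) :
    ⟪z.2, (fderiv ℝ κ a v).1⟫_ℝ = 0 ∧ LL G z e (fderiv ℝ κ a v) = v ∧ fderiv ℝ (Ham G) (κ a) (fderiv ℝ κ a v) = 0 ∧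
      ‖fderiv ℝ κ a v‖ ≤ C * ‖v‖ := by
  have ha' : ‖a - 0‖ ≤ r := by rw [sub_zero]; exact ha.le
  have hκ : HasFDerivAt κ (fderiv ℝ κ a) a := (hK.c11.dif a ha').hasFDerivAt
  have hev : ∀ᶠ b in 𝓝 a, ‖b‖ ≤ r := by
    filter_upwards [(continuous_norm.tendsto a).eventually (gt_mem_nhds ha)] with b hb
    exact le_of_lt hb
  refine ⟨?_, ?_, ?_, ?_⟩
  · have h1 : HasFDerivAt (fun b => (κ b).1) ((ContinuousLinearMap.fst ℝ (V (m + 1)) (V (m + 1))).comp (fderiv ℝ κ a)) a :=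
      (ContinuousLinearMap.fst ℝ (V (m + 1)) (V (m + 1))).hasFDerivAt.comp a hκ
    have h2 : HasFDerivAt (fun b : Z m => z.1 + e b.1) (e.comp (ContinuousLinearMap.fst ℝ (W m) (W m))) a :=
      (e.comp (ContinuousLinearMap.fst ℝ (W m) (W m))).hasFDerivAt.const_add z.1
    have h3 : (fun b => (κ b).1) =ᶠ[𝓝 a] fun b : Z m => z.1 + e b.1 := by
      filter_upwards [hev] with b hb
      exact (hK.on b hb).2.1
    have h4 := h1.unique (h2.congr_of_eventuallyEq h3)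
    have h5 : (fderiv ℝ κ a v).1 = e v.1 := by
      have h6 := congrArg (fun L : Z m →L[ℝ] V (m + 1) => L v) h4
      exact h6
    rw [h5]
    exact hfr.ort v.1
  · obtain ⟨Lc, hLc⟩ : ∃ Lc : P (m + 1) →L[ℝ] Z m, ∀ q, Lc q = LL G z e q :=
      ⟨LinearMap.toContinuousLinearMap (hl.mk' _), fun q => rfl⟩
    have h1 : HasFDerivAt (fun b => Lc (κ b - z)) (Lc.comp (fderiv ℝ κ a)) a :=
      Lc.hasFDerivAt.comp a (hκ.sub_const z)
    have h3 : (fun b => Lc (κ b - z)) =ᶠ[𝓝 a] fun b : Z m => b := by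
      filter_upwards [hev] with b hb
      rw [hLc]
      exact (hK.on b hb).2.2
    have h4 := h1.unique ((hasFDerivAt_id a).congr_of_eventuallyEq h3)
    have h6 := congrArg (fun L : Z m →L[ℝ] Z m => L v) h4
    rw [← hLc]
    exact h6
  · have hH : HasFDerivAt (Ham G) (fderiv ℝ (Ham G) (κ a)) (κ a) := ((hs.differentiable (by simp)) (κ a)).hasFDerivAt
    have h1 : HasFDerivAt (fun b => Ham G (κ b)) ((fderiv ℝ (Ham G) (κ a)).comp (fderiv ℝ κ a)) a := hH.comp a hκ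
    have h3 : (fun b => Ham G (κ b)) =ᶠ[𝓝 a] fun _ : Z m => (1 / 2 : ℝ) := by
      filter_upwards [hev] with b hb
      exact SPQ_ham (hK.on b hb).1
    have h4 := h1.unique ((hasFDerivAt_const (1 / 2 : ℝ) a).congr_of_eventuallyEq h3)
    have h6 := congrArg (fun L : Z m →L[ℝ] ℝ => L v) h4
    exact h6
  · exact ((fderiv ℝ κ a).le_opNorm v).trans (mul_le_mul_of_nonneg_right (hK.c11.bd a ha') (norm_nonneg _))

/-- `dH` of the image of a tangent vector -/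
theorem SPQ_dH {m : ℕ} {Γ : Type} [Group Γ] [MulAction Γ (V (m + 1))] {K : Set (V (m + 1))} {C : ℝ} {G : V (m + 1) → V (m + 1) →L[ℝ] V (m + 1)}
    {Φ : ℝ → P (m + 1) → P (m + 1)} {D : P (m + 1) → P (m + 1) → ℝ} (hG : GEO Γ K C G Φ D) (γ : Γ) (s : ℝ) (p v : P (m + 1)) :
    fderiv ℝ (Ham G) (MM Φ γ (s, p)) (fderiv ℝ (MM Φ γ) (s, p) (0, v)) = fderiv ℝ (Ham G) p v := by
  have hM : HasFDerivAt (MM Φ γ) (fderiv ℝ (MM Φ γ) (s, p)) (s, p) := (((hG.dif γ).differentiable (by simp)) (s, p)).hasFDerivAt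
  have hH : ∀ x, HasFDerivAt (Ham G) (fderiv ℝ (Ham G) x) x := fun x => ((hG.hs.differentiable (by simp)) x).hasFDerivAt
  have h1 : HasFDerivAt (fun q : ℝ × P (m + 1) => Ham G (MM Φ γ q)) ((fderiv ℝ (Ham G) (MM Φ γ (s, p))).comp (fderiv ℝ (MM Φ γ) (s, p))) (s, p) :=
    (hH _).comp (s, p) hM
  have h2 : HasFDerivAt (fun q : ℝ × P (m + 1) => Ham G q.2) ((fderiv ℝ (Ham G) p).comp (ContinuousLinearMap.snd ℝ ℝ (P (m + 1)))) (s, p) :=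
    HasFDerivAt.comp (g := Ham G) (f := fun q : ℝ × P (m + 1) => q.2) (s, p) (hH p) (ContinuousLinearMap.snd ℝ ℝ (P (m + 1))).hasFDerivAt
  have h3 : (fun q : ℝ × P (m + 1) => Ham G (MM Φ γ q)) = fun q : ℝ × P (m + 1) => Ham G q.2 := by
    funext q
    exact (hG.hm γ q.1 q.2).2
  rw [h3] at h1
  have h4 := h1.unique h2
  exact congrArg (fun L : (ℝ × P (m + 1)) →L[ℝ] ℝ => L (0, v)) h4

/-- the derivative of the conjugated map -/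
theorem SPQ_cj {m : ℕ} {Γ : Type} [Group Γ] [MulAction Γ (V (m + 1))] {K : Set (V (m + 1))} {C : ℝ} {G : V (m + 1) → V (m + 1) →L[ℝ] V (m + 1)}
    {Φ : ℝ → P (m + 1) → P (m + 1)} {D : P (m + 1) → P (m + 1) → ℝ} (hG : GEO Γ K C G Φ D) (γ : Γ) {F : Z m → Z m} {τ : Z m → ℝ} {κ κ' : Z m → P (m + 1)}
    {a : Z m} (hF : DifferentiableAt ℝ F a) (hτ : DifferentiableAt ℝ τ a) (hκ : DifferentiableAt ℝ κ a) (hκ' : DifferentiableAt ℝ κ' (F a))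
    (hev : (fun b => κ' (F b)) =ᶠ[𝓝 a] fun b => MM Φ γ (τ b, κ b)) (v : Z m) :
    fderiv ℝ κ' (F a) (fderiv ℝ F a v) = fderiv ℝ (MM Φ γ) (τ a, κ a) (0, fderiv ℝ κ a v) + (fderiv ℝ τ a v) • XH G (MM Φ γ (τ a, κ a)) := by
  have hM : HasFDerivAt (MM Φ γ) (fderiv ℝ (MM Φ γ) (τ a, κ a)) (τ a, κ a) := (((hG.dif γ).differentiable (by simp)) (τ a, κ a)).hasFDerivAt
  have h1 : HasFDerivAt (fun b => κ' (F b)) ((fderiv ℝ κ' (F a)).comp (fderiv ℝ F a)) a := hκ'.hasFDerivAt.comp a hF.hasFDerivAt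
  have h2 : HasFDerivAt (fun b => MM Φ γ (τ b, κ b)) ((fderiv ℝ (MM Φ γ) (τ a, κ a)).comp ((fderiv ℝ τ a).prod (fderiv ℝ κ a))) a :=
    HasFDerivAt.comp (g := MM Φ γ) (f := fun b => (τ b, κ b)) a hM (hτ.hasFDerivAt.prodMk hκ.hasFDerivAt)
  have h4 := h1.unique (h2.congr_of_eventuallyEq hev)
  have h5 : fderiv ℝ κ' (F a) (fderiv ℝ F a v) = fderiv ℝ (MM Φ γ) (τ a, κ a) (fderiv ℝ τ a v, fderiv ℝ κ a v) :=
    congrArg (fun L : Z m →L[ℝ] P (m + 1) => L v) h4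
  have h6 : (fderiv ℝ τ a v, fderiv ℝ κ a v) = ((0, fderiv ℝ κ a v) : ℝ × P (m + 1)) + (fderiv ℝ τ a v) • ((1, 0) : ℝ × P (m + 1)) := by
    ext <;> simp
  rw [h5, h6, map_add, map_smul, hG.mx]

theorem SPQ_omg {d : ℕ} (u w x : P d) (s s' : ℝ) : omg (u + s • x) (w + s' • x) = omg u w + s' * omg u x - s * omg w x := by
  unfold omg
  simp only [Prod.fst_add, Prod.snd_add, Prod.smul_fst, Prod.smul_snd, inner_add_left, inner_add_right, real_inner_smul_left,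
    real_inner_smul_right]
  ring

theorem SPQ_proof (hSC1 : SC1_stmt) (hSFI : SFI_stmt) : SPQ_stmt := by
  intro m C C' r M ρ hC hC' hr hM hρ
  obtain ⟨M1, hM1, hfi⟩ := hSFI m C hC
  have hC0 : 0 < C := lt_of_lt_of_le one_pos hC
  have hC'0 : 0 < C' := lt_of_lt_of_le one_pos hC'
  have hM0 : 0 < M := lt_of_lt_of_le one_pos hM
  have hM10 : 0 < M1 := lt_of_lt_of_le one_pos hM1
  obtain ⟨c, hc⟩ : ∃ c : ℝ, c = 1 / (2 * C * M1 ^ 2) := ⟨_, rfl⟩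
  have hc0 : 0 < c := by rw [hc]; positivity
  obtain ⟨ρ', hρ', hρ1, hρρ, hρr, hρM, hρC, hρC2, hρc⟩ : ∃ ρ' : ℝ, 0 < ρ' ∧ ρ' ≤ 1 ∧ ρ' ≤ ρ ∧ ρ' ≤ r / (4 * M) ∧ ρ' ≤ 1 / (8 * M) ∧
      ρ' ≤ 1 / (C' * C) ∧ ρ' ≤ 1 / (2 * C' * M) ∧ ρ' ≤ c / (4 * C * C' ^ 4 * M ^ 3) := by
    refine ⟨min (min (min 1 ρ) (min (r / (4 * M)) (1 / (8 * M)))) (min (1 / (C' * C)) (min (1 / (2 * C' * M)) (c / (4 * C * C' ^ 4 * M ^ 3)))), ?_, ?_, ?_, ?_, ?_, ?_, ?_, ?_⟩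
    · positivity
    · exact (min_le_left _ _).trans ((min_le_left _ _).trans (min_le_left _ _))
    · exact (min_le_left _ _).trans ((min_le_left _ _).trans (min_le_right _ _))
    · exact (min_le_left _ _).trans ((min_le_right _ _).trans (min_le_left _ _))
    · exact (min_le_left _ _).trans ((min_le_right _ _).trans (min_le_right _ _))
    · exact (min_le_right _ _).trans (min_le_left _ _)
    · exact (min_le_right _ _).trans ((min_le_right _ _).trans (min_le_left _ _))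
    · exact (min_le_right _ _).trans ((min_le_right _ _).trans (min_le_right _ _))
  refine ⟨c, ρ', hc0, hρ', hρρ, ?_⟩
  intro Γ _ _ K G Φ D hG z hz z' hz' e e' κ κ' hfr hfr' hK hK' γ t j0 ht1 ht2 hj0 hj F τ hP a ha
  obtain ⟨hl, hQ, hO, -, -, hLb, -, -⟩ := hfi Γ K G Φ D hG z hz e hfr
  obtain ⟨hl', hQ', hO', -, -, -, -, -⟩ := hfi Γ K G Φ D hG z' hz' e' hfr'
  have hj00 : 0 ≤ j0 := by rw [hj0]; exact norm_nonneg _
  have han := norm_nonneg a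
  have haρ : ‖a‖ ≤ ρ := ha.le.trans hρρ
  have haρ0 : ‖a - 0‖ ≤ ρ := by rw [sub_zero]; exact haρ
  -- numbers
  have n1 : 4 * M * ρ' ≤ r := by
    rw [le_div_iff₀ (by positivity)] at hρr
    linarith
  have n2 : 8 * M * ρ' ≤ 1 := by
    rw [le_div_iff₀ (by positivity)] at hρM
    linarith
  have n3 : C' * C * ρ' ≤ 1 := by
    rw [le_div_iff₀ (by positivity)] at hρC
    linarith
  have n4 : 2 * C' * M * ρ' ≤ 1 := by
    rw [le_div_iff₀ (by positivity)] at hρC2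
    linarith
  have n5 : 4 * C * C' ^ 4 * M ^ 3 * ρ' ≤ c := by
    rw [le_div_iff₀ (by positivity)] at hρc
    linarith
  have hMρ : 0 < M * ρ' := by positivity
  have har : ‖a‖ < r := by
    have : ρ' ≤ M * ρ' := by nlinarith
    linarith
  obtain ⟨heq, hτt, hFa, hFr⟩ := hP.eq a haρ
  have hFa' : ‖F a‖ ≤ 2 * M * ρ' := by
    refine hFa.trans ?_
    nlinarith
  have hFr' : ‖F a‖ < r := by linarith
  have hFr0 : ‖F a - 0‖ ≤ r := by rw [sub_zero]; exact hFr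
  -- the points
  obtain ⟨p, hp⟩ : ∃ p, p = κ a := ⟨_, rfl⟩
  obtain ⟨q, hq⟩ : ∃ q, q = MM Φ γ (τ a, κ a) := ⟨_, rfl⟩
  have hqκ : q = κ' (F a) := by rw [hq]; exact heq.symm
  have hpz : ‖p - z‖ ≤ C' * ρ' := by
    have h := ((hSC1 (Z m) (P (m + 1)) ℝ C' r 0 hC' hr).1 κ hK.c11 a 0 (by rw [sub_zero]; exact har.le) (by rw [sub_zero, norm_zero]; exact hr.le)).1
    rw [hK.zero, sub_zero] at h
    rw [hp]
    exact h.trans (mul_le_mul_of_nonneg_left ha.le hC'0.le)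
  have hqz : ‖q - z'‖ ≤ 2 * C' * M * ρ' := by
    have h := ((hSC1 (Z m) (P (m + 1)) ℝ C' r 0 hC' hr).1 κ' hK'.c11 (F a) 0 hFr0 (by rw [sub_zero, norm_zero]; exact hr.le)).1
    rw [hK'.zero, sub_zero] at h
    rw [hqκ]
    refine h.trans ((mul_le_mul_of_nonneg_left hFa' hC'0.le).trans (le_of_eq ?_))
    ring
  have hnp : nrm G p = 1 := by
    rw [hp]
    exact (hK.on a har.le).1
  have hev : (fun b => κ' (F b)) =ᶠ[𝓝 a] fun b => MM Φ γ (τ b, κ b) := by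
    filter_upwards [(continuous_norm.tendsto a).eventually (gt_mem_nhds (lt_of_lt_of_le ha hρρ))] with b hb
    exact (hP.eq b (le_of_lt hb)).1
  have hdF := hP.cF.dif a haρ0
  have hdτ := hP.ct.dif a haρ0
  have hdκ := hK.c11.dif a (by rw [sub_zero]; exact har.le)
  have hdκ' := hK'.c11.dif (F a) hFr0
  have hcj := SPQ_cj hG γ hdF hdτ hdκ hdκ' hev
  rw [← hq, ← hp] at hcj
  have hdz : ∀ v, fderiv ℝ (Ham G) q (fderiv ℝ (MM Φ γ) (τ a, p) (0, fderiv ℝ κ a v)) = 0 := by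
    intro v
    rw [hq, ← hp, SPQ_dH hG γ (τ a) p, hp]
    exact (SPQ_kc hK hfr hG.hs hl har v).2.2.1
  have hqp : q = MM Φ γ (τ a, p) := by rw [hq, hp]
  constructor
  · intro v
    obtain ⟨d1, d2, d3, d4⟩ := SPQ_kc hK hfr hG.hs hl har v
    obtain ⟨f1, f2, f3, f4⟩ := SPQ_kc hK' hfr' hG.hs hl' hFr' (fderiv ℝ F a v)
    have hv := norm_nonneg v
    obtain ⟨δ, hδ⟩ : ∃ δ, δ = fderiv ℝ κ a v := ⟨_, rfl⟩
    obtain ⟨δ1, hδ1⟩ : ∃ δ1, δ1 = fderiv ℝ κ' (F a) (fderiv ℝ F a v) := ⟨_, rfl⟩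
    rw [← hδ] at d1 d2 d3 d4
    rw [← hδ1] at f1 f2 f3 f4
    have hδn := norm_nonneg δ
    -- lower and upper bounds
    have g1 : ‖v‖ ≤ M1 * ‖δ‖ := by
      have h := hLb δ
      rw [d2] at h
      exact h
    have g2 : ‖δ1‖ ≤ C' * M * ‖v‖ := by
      refine f4.trans ?_
      have h := ((fderiv ℝ F a).le_opNorm v).trans (mul_le_mul_of_nonneg_right (hP.cF.bd a haρ0) hv)
      calc C' * ‖fderiv ℝ F a v‖ ≤ C' * (M * ‖v‖) := mul_le_mul_of_nonneg_left h hC'0.le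
        _ = C' * M * ‖v‖ := by ring
    -- the quadratic forms
    have q1 : QQ (fderiv ℝ F a v) = Qc G z' δ1 := by
      have h := hQ' δ1
      rw [f2, f1, zero_mul, sub_zero] at h
      exact h
    have q2 : QQ v = Qc G z δ := by
      have h := hQ δ
      rw [d2, d1, zero_mul, sub_zero] at h
      exact h
    have q3 : |Qc G q δ1 - Qc G z' δ1| ≤ C * ‖q - z'‖ * ‖δ1‖ ^ 2 := hG.bq z' hz' q δ1 (hqz.trans n4)
    have hpz1 : ‖p - z‖ ≤ 1 := by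
      have h1 : C' * ρ' ≤ C' * C * ρ' := by nlinarith [mul_pos hC'0 hρ']
      linarith
    have q4 : |Qc G p δ - Qc G z δ| ≤ C * ‖p - z‖ * ‖δ‖ ^ 2 := hG.bq z hz p δ hpz1
    have q5 : Qc G q δ1 = Qc G q (fderiv ℝ (MM Φ γ) (τ a, p) (0, δ)) := by
      rw [hδ1, hcj v, ← hδ]
      obtain ⟨y, hy⟩ : ∃ y, y = fderiv ℝ (MM Φ γ) (τ a, p) (0, δ) := ⟨_, rfl⟩
      have hy0 : fderiv ℝ (Ham G) q y = 0 := by
        rw [hy, hδ]
        exact hdz v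
      rw [← hy]
      unfold Qc
      have hw : Wc G q (y + (fderiv ℝ τ a v) • XH G q) = Wc G q y := by
        rw [(hG.wl q).map_add, (hG.wl q).map_smul, hG.wx, smul_zero, add_zero]
      rw [hw, Prod.fst_add, Prod.smul_fst, inner_add_right, real_inner_smul_right]
      have hx : (XH G q).1 = vel G q := rfl
      rw [hx, ← hG.dh, hy0, mul_zero, add_zero]
    have hτa := abs_le.1 hτt
    have hT : M * (‖a‖ ^ 2 + j0) ≤ 1 / 4 := by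
      have h1 : ‖a‖ ^ 2 ≤ ρ' := by nlinarith
      have h2 : ‖a‖ ^ 2 + j0 ≤ 2 * ρ' := by linarith
      have h3 := mul_le_mul_of_nonneg_left h2 hM0.le
      linarith
    have hpC : ‖p - z‖ ≤ 1 / C := by
      rw [le_div_iff₀ hC0]
      calc ‖p - z‖ * C ≤ C' * ρ' * C := mul_le_mul_of_nonneg_right hpz hC0.le
        _ = C' * C * ρ' := by ring
        _ ≤ 1 := n3
    have q6 : Qc G p δ + ‖δ‖ ^ 2 / C - C * ⟪p.2, δ.1⟫_ℝ ^ 2 ≤ Qc G q (fderiv ℝ (MM Φ γ) (τ a, p) (0, δ)) := by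
      rw [hqp]
      have d3' : fderiv ℝ (Ham G) p δ = 0 := by rw [hp]; exact d3
      exact hG.jq γ z hz (τ a) (by linarith) (by linarith) p δ hnp hpC d3'
    have q7 : |⟪p.2, δ.1⟫_ℝ| ≤ C' * ρ' * ‖δ‖ := by
      have h1 : ⟪p.2, δ.1⟫_ℝ = ⟪p.2 - z.2, δ.1⟫_ℝ := by
        rw [inner_sub_left, d1, sub_zero]
      rw [h1]
      refine (abs_real_inner_le_norm _ _).trans ?_
      have h2 : ‖p.2 - z.2‖ ≤ ‖p - z‖ := norm_snd_le (p - z)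
      exact mul_le_mul (h2.trans hpz) (norm_fst_le δ) (norm_nonneg _) (by positivity)
    -- sizes of the errors
    have s1 : C * ‖q - z'‖ * ‖δ1‖ ^ 2 ≤ 2 * C * C' ^ 3 * M ^ 3 * ρ' * ‖v‖ ^ 2 := by
      have h1 : ‖δ1‖ ^ 2 ≤ (C' * M * ‖v‖) ^ 2 := pow_le_pow_left₀ (norm_nonneg _) g2 2
      calc C * ‖q - z'‖ * ‖δ1‖ ^ 2 ≤ C * (2 * C' * M * ρ') * (C' * M * ‖v‖) ^ 2 := by gcongr
        _ = 2 * C * C' ^ 3 * M ^ 3 * ρ' * ‖v‖ ^ 2 := by ring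
    have hδ2 : ‖δ‖ ^ 2 ≤ (C' * ‖v‖) ^ 2 := pow_le_pow_left₀ hδn d4 2
    have s2 : C * ‖p - z‖ * ‖δ‖ ^ 2 ≤ C * C' ^ 3 * ρ' * ‖v‖ ^ 2 := by
      calc C * ‖p - z‖ * ‖δ‖ ^ 2 ≤ C * (C' * ρ') * (C' * ‖v‖) ^ 2 := by gcongr
        _ = C * C' ^ 3 * ρ' * ‖v‖ ^ 2 := by ring
    have s3 : C * ⟪p.2, δ.1⟫_ℝ ^ 2 ≤ C * C' ^ 4 * ρ' * ‖v‖ ^ 2 := by
      have h1 : ⟪p.2, δ.1⟫_ℝ ^ 2 ≤ (C' * ρ' * ‖δ‖) ^ 2 := sq_le_sq' (abs_le.1 q7).1 (abs_le.1 q7).2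
      have h2 : (C' * ρ' * ‖δ‖) ^ 2 = C' ^ 2 * ρ' ^ 2 * ‖δ‖ ^ 2 := by ring
      have h3 : ρ' ^ 2 ≤ ρ' := by nlinarith
      calc C * ⟪p.2, δ.1⟫_ℝ ^ 2 ≤ C * (C' ^ 2 * ρ' ^ 2 * ‖δ‖ ^ 2) := by
            rw [← h2]
            exact mul_le_mul_of_nonneg_left h1 hC0.le
        _ ≤ C * (C' ^ 2 * ρ' * (C' * ‖v‖) ^ 2) := by gcongr
        _ = C * C' ^ 4 * ρ' * ‖v‖ ^ 2 := by ring
    have s4 : 2 * c * ‖v‖ ^ 2 ≤ ‖δ‖ ^ 2 / C := by
      rw [le_div_iff₀ hC0]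
      have h1 : ‖v‖ ^ 2 ≤ (M1 * ‖δ‖) ^ 2 := pow_le_pow_left₀ hv g1 2
      have h2 : 2 * c * C * M1 ^ 2 = 1 := by
        rw [hc]
        field_simp
      calc 2 * c * ‖v‖ ^ 2 * C ≤ 2 * c * (M1 * ‖δ‖) ^ 2 * C := by gcongr
        _ = (2 * c * C * M1 ^ 2) * ‖δ‖ ^ 2 := by ring
        _ = ‖δ‖ ^ 2 := by rw [h2, one_mul]
    have s5 : (2 * C * C' ^ 3 * M ^ 3 * ρ' + C * C' ^ 3 * ρ' + C * C' ^ 4 * ρ') * ‖v‖ ^ 2 ≤ c * ‖v‖ ^ 2 := by
      apply mul_le_mul_of_nonneg_right _ (by positivity)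
      refine le_trans ?_ n5
      have hM3 : 1 ≤ M ^ 3 := one_le_pow₀ hM
      have h34 : C' ^ 3 ≤ C' ^ 4 := pow_le_pow_right₀ hC' (by norm_num)
      have t1 : 2 * C * C' ^ 3 * M ^ 3 * ρ' ≤ 2 * C * C' ^ 4 * M ^ 3 * ρ' := by gcongr
      have t2 : C * C' ^ 3 * ρ' ≤ C * C' ^ 4 * M ^ 3 * ρ' := by
        calc C * C' ^ 3 * ρ' = C * C' ^ 3 * 1 * ρ' := by ring
          _ ≤ C * C' ^ 4 * M ^ 3 * ρ' := by gcongr
      have t3 : C * C' ^ 4 * ρ' ≤ C * C' ^ 4 * M ^ 3 * ρ' := by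
        calc C * C' ^ 4 * ρ' = C * C' ^ 4 * 1 * ρ' := by ring
          _ ≤ C * C' ^ 4 * M ^ 3 * ρ' := by gcongr
      linarith
    have u1 := (abs_le.1 q3).2
    have u2 := (abs_le.1 q4).1
    rw [q1, q2]
    rw [q5] at u1
    linarith
  · intro v w
    obtain ⟨d1, d2, d3, -⟩ := SPQ_kc hK hfr hG.hs hl har v
    obtain ⟨f1, f2, f3, -⟩ := SPQ_kc hK' hfr' hG.hs hl' hFr' (fderiv ℝ F a v)
    obtain ⟨d1', d2', d3', -⟩ := SPQ_kc hK hfr hG.hs hl har w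
    obtain ⟨f1', f2', f3', -⟩ := SPQ_kc hK' hfr' hG.hs hl' hFr' (fderiv ℝ F a w)
    have h1 := hO' _ _ f1 f1'
    rw [f2, f2'] at h1
    have h2 := hO _ _ d1 d1'
    rw [d2, d2'] at h2
    rw [h1, h2, hcj v, hcj w, SPQ_omg, hG.ox, hG.ox, hdz v, hdz w, mul_zero, mul_zero, add_zero, sub_zero]
    exact hG.om γ (τ a) p _ _

end

end Pool.Agent.VD
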